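import Pool.Agent.Q227.SI.Hall
import Pool.Agent.Q227.TF.Pol

/-!
# Packing double stars and stars: satisfiability
-/

set_option autoImplicit false

namespace Pool.Agent.Q227.SI

open Finset Pool.Agent.NPC Pool.Agent.Q227.TF

/-- The cells which belong to the literals of the clauses. -/
def wOf (φ : F3) (z : Cell) : Bool := litIn φ z.1 z.2.2 z.2.1

theorem litIn_iff {φ : F3} {i j : ℕ} {b : Bool} : litIn φ i b j = true ↔
    ∃ h : j < φ.length, φ[j].1 = (b, i) ∨ φ[j].2.1 = (b, i) ∨ φ[j].2.2 = (b, i) := by
  unfold litIn
  by_cases h : j < φ.length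
  · rw [List.getElem?_eq_getElem h]
    simp only [Bool.or_eq_true, decide_eq_true_eq]
    exact ⟨fun h' => ⟨h, h'⟩, fun ⟨_, h'⟩ => h'⟩
  · rw [List.getElem?_eq_none (by omega)]
    simp only [Bool.false_eq_true, false_iff]
    rintro ⟨h', _⟩
    exact h h'

theorem rot_eq {J j : ℕ} (hj : j < J) : (j + (J - 1)) % J = if j = 0 then J - 1 else j - 1 := by
  split_ifs with h
  · subst h
    rw [Nat.mod_eq_of_lt (by omega)]
    omega
  · have : j + (J - 1) = (j - 1) + J := by omega
    rw [this, Nat.add_mod_right, Nat.mod_eq_of_lt (by omega)]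

theorem csp_of_sat {φ : F3} (h : SAT3 φ) :
    ∃ x, Csp (3 * φ.length) (φ.length + 1) (wOf φ) x := by
  classical
  obtain ⟨τ, hτ⟩ := h
  refine ⟨fun z => decide (τ z.1 = z.2.2), ?_, ?_, ?_⟩
  · rintro ⟨i, j, s⟩ hz ⟨i', j', s'⟩ hz' h1 h2 h3
    rw [mem_cells] at hz hz'
    simp only [decide_eq_true_eq] at h2 h3
    unfold col at h1
    simp only at h1
    set J := φ.length + 1 with hJ
    have hr : ∀ (s : Bool) (j : ℕ), j < J →
        (if s = true then (j + (J - 1)) % J else j) < J := by
      intro s j hj
      split_ifs
      · exact Nat.mod_lt _ (by omega)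
      · exact hj
    have h3' : i = i' ∧ (if s = true then (j + (J - 1)) % J else j) =
        (if s' = true then (j' + (J - 1)) % J else j') := by
      have e1 := hr s j hz.2
      have e2 := hr s' j' hz'.2
      rcases lt_trichotomy i i' with h | h | h
      · have h6 := Nat.mul_le_mul_right J (Nat.succ_le_of_lt h)
        rw [Nat.succ_mul] at h6
        omega
      · subst h
        exact ⟨rfl, by omega⟩
      · have h6 := Nat.mul_le_mul_right J (Nat.succ_le_of_lt h)
        rw [Nat.succ_mul] at h6
        omega
    obtain ⟨rfl, h4⟩ := h3'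
    have hs : s = s' := h2.symm.trans h3
    subst hs
    have hj : j = j' := by
      cases s
      · simpa using h4
      · simp only [if_true, rot_eq hz.2, rot_eq hz'.2] at h4
        split_ifs at h4 <;> omega
    rw [hj]
  · intro j hj t ht
    refine le_of_le_of_eq ?_ (Finset.card_range t)
    refine Finset.card_le_card_of_injOn (fun z => z.1) ?_ ?_
    · intro z hz
      rw [Finset.mem_coe, Finset.mem_filter] at hz
      exact Finset.mem_coe.2 (Finset.mem_range.2 hz.2.2.1)
    · rintro ⟨i, a, s⟩ hz ⟨i', a', s'⟩ hz' h
      rw [Finset.mem_coe, Finset.mem_filter] at hz hz'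
      simp only [decide_eq_false_iff_not] at hz hz' h
      subst h
      have h1 : s = s' := by
        have e1 := hz.2.2.2
        have e2 := hz'.2.2.2
        revert e1 e2
        cases s <;> cases s' <;> cases τ i <;> simp
      rw [h1, hz.2.1, hz'.2.1]
  · intro j hj
    by_cases hjm : j < φ.length
    · have hmem : φ[j] ∈ φ := List.getElem_mem hjm
      have hsub : ∀ z ∈ ((cells (3 * φ.length) (φ.length + 1)).toFinset.filter fun z =>
          z.2.1 = j ∧ wOf φ z = true ∧ decide (τ z.1 = z.2.2) = false),
          ∃ l : Lit ℕ, (φ[j].1 = l ∨ φ[j].2.1 = l ∨ φ[j].2.2 = l) ∧ τ l.2 ≠ l.1 ∧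
            z = (l.2, j, l.1) := by
        rintro ⟨i, a, s⟩ hz
        rw [Finset.mem_filter] at hz
        obtain ⟨_, h1, h2, h3⟩ := hz
        simp only at h1
        subst h1
        unfold wOf at h2
        rw [litIn_iff] at h2
        obtain ⟨_, h2⟩ := h2
        exact ⟨(s, i), h2, by simpa using h3, rfl⟩
      have hcard : ∀ a b : Cell, (∀ z ∈ ((cells (3 * φ.length) (φ.length + 1)).toFinset.filter
          fun z => z.2.1 = j ∧ wOf φ z = true ∧ decide (τ z.1 = z.2.2) = false),
          z = a ∨ z = b) → ((cells (3 * φ.length) (φ.length + 1)).toFinset.filter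
          fun z => z.2.1 = j ∧ wOf φ z = true ∧ decide (τ z.1 = z.2.2) = false).card ≤ 2 := by
        intro a b hab
        refine (Finset.card_le_card (t := {a, b}) fun z hz => ?_).trans Finset.card_le_two
        rw [Finset.mem_insert, Finset.mem_singleton]
        exact hab z hz
      rcases hτ _ hmem with h | h | h
      · refine hcard (φ[j].2.1.2, j, φ[j].2.1.1) (φ[j].2.2.2, j, φ[j].2.2.1) fun z hz => ?_
        obtain ⟨l, rfl | rfl | rfl, h2, h3⟩ := hsub z hz
        · exact absurd h h2
        · exact Or.inl h3
        · exact Or.inr h3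
      · refine hcard (φ[j].1.2, j, φ[j].1.1) (φ[j].2.2.2, j, φ[j].2.2.1) fun z hz => ?_
        obtain ⟨l, rfl | rfl | rfl, h2, h3⟩ := hsub z hz
        · exact Or.inl h3
        · exact absurd h h2
        · exact Or.inr h3
      · refine hcard (φ[j].1.2, j, φ[j].1.1) (φ[j].2.1.2, j, φ[j].2.1.1) fun z hz => ?_
        obtain ⟨l, rfl | rfl | rfl, h2, h3⟩ := hsub z hz
        · exact Or.inl h3
        · exact Or.inr h3
        · exact absurd h h2
    · have : ((cells (3 * φ.length) (φ.length + 1)).toFinset.filter
          fun z => z.2.1 = j ∧ wOf φ z = true ∧ decide (τ z.1 = z.2.2) = false) = ∅ := by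
        rw [Finset.filter_eq_empty_iff]
        rintro ⟨i, a, s⟩ _ ⟨h1, h2, _⟩
        simp only at h1
        subst h1
        unfold wOf at h2
        rw [litIn_iff] at h2
        obtain ⟨h2, _⟩ := h2
        exact hjm h2
      rw [this]
      simp

section

variable {N J : ℕ} {w x : Cell → Bool}

/-- The two cells of a variable in a column are not both chosen. -/
theorem not_both (h : Csp N J w x) (hJ : 2 ≤ J) {i j : ℕ} (hi : i < N) (hj : j < J) :
    ¬ (x (i, j, false) = true ∧ x (i, (j + 1) % J, true) = true) := by
  rintro ⟨h1, h2⟩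
  have hj' : (j + 1) % J < J := Nat.mod_lt _ (by omega)
  have h3 := h.column (i, j, false) (mem_cells.2 ⟨hi, hj⟩) (i, (j + 1) % J, true)
    (mem_cells.2 ⟨hi, hj'⟩) (by
      unfold col
      simp only [Bool.false_eq_true, if_false, if_true]
      congr 1
      rw [rot_eq hj']
      rcases Nat.lt_or_ge (j + 1) J with h4 | h4
      · rw [Nat.mod_eq_of_lt h4, if_neg (by omega)]
        omega
      · have : j + 1 = J := by omega
        rw [this, Nat.mod_self, if_pos rfl]
        omega) h1 h2
  simp at h3

/-- Induction over the variables: for every variable exactly one of the two values is chosen. -/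
theorem exact_one (h : Csp N J w x) (hJ : 2 ≤ J) : ∀ i < N,
    ∀ j < J, x (i, j, true) = !x (i, j, false) := by
  classical
  intro i
  induction i using Nat.strong_induction_on with
  | _ i ih =>
    intro hi
    -- at least one
    have hone : ∀ j < J, x (i, j, true) = true ∨ x (i, j, false) = true := by
      intro j hj
      by_contra hcon
      simp only [not_or, Bool.not_eq_true] at hcon
      have h1 := h.row j hj (i + 1) (by omega)
      have h2 : i + 2 ≤ (((cells N J).toFinset).filter fun z =>
          z.2.1 = j ∧ z.1 < i + 1 ∧ x z = false).card := by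
        have h3 : ((Finset.range i).image (fun k => ((k, j, !x (k, j, true) && true) : Cell)) ∪
            {(i, j, true), (i, j, false)}).card = i + 2 := by
          rw [Finset.card_union_of_disjoint, Finset.card_image_of_injective, Finset.card_range,
            Finset.card_pair]
          · simp
          · intro a b hab
            simp only [Prod.mk.injEq] at hab
            exact hab.1
          · rw [Finset.disjoint_left]
            intro z hz hz'
            rw [Finset.mem_image] at hz
            obtain ⟨k, hk, rfl⟩ := hz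
            rw [Finset.mem_range] at hk
            rw [Finset.mem_insert, Finset.mem_singleton] at hz'
            simp only [Prod.mk.injEq] at hz'
            omega
        rw [← h3]
        apply Finset.card_le_card
        intro z hz
        rw [Finset.mem_filter, List.mem_toFinset]
        rcases Finset.mem_union.1 hz with hz | hz
        · rw [Finset.mem_image] at hz
          obtain ⟨k, hk, rfl⟩ := hz
          rw [Finset.mem_range] at hk
          refine ⟨mem_cells.2 ⟨by omega, hj⟩, rfl, by simp only; omega, ?_⟩
          have h4 := ih k hk (by omega) j hj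
          cases h5 : x (k, j, true)
          · simpa using h5
          · rw [h5] at h4
            have h6 : x (k, j, false) = false := by
              cases h7 : x (k, j, false)
              · rfl
              · rw [h7] at h4
                exact Bool.noConfusion h4
            simpa using h6
        · rw [Finset.mem_insert, Finset.mem_singleton] at hz
          rcases hz with rfl | rfl
          · exact ⟨mem_cells.2 ⟨hi, hj⟩, rfl, by simp, hcon.1⟩
          · exact ⟨mem_cells.2 ⟨hi, hj⟩, rfl, by simp, hcon.2⟩
      omega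
    intro j hj
    -- not both
    have hnb : ¬ (x (i, j, true) = true ∧ x (i, j, false) = true) := by
      rintro ⟨h1, h2⟩
      have key : ∀ k, x (i, (j + k) % J, false) = true := by
        intro k
        induction k with
        | zero => rw [Nat.add_zero, Nat.mod_eq_of_lt hj]; exact h2
        | succ k ihk =>
          have hlt : (j + k) % J < J := Nat.mod_lt _ (by omega)
          have h3 := not_both h hJ hi hlt
          have h4 : ((j + k) % J + 1) % J = (j + (k + 1)) % J := by
            rw [Nat.mod_add_mod, Nat.add_assoc]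
          rw [h4] at h3
          rcases hone ((j + (k + 1)) % J) (Nat.mod_lt _ (by omega)) with h5 | h5
          · exact absurd ⟨ihk, h5⟩ h3
          · exact h5
      have h3 := key (J - 1)
      have hlt : (j + (J - 1)) % J < J := Nat.mod_lt _ (by omega)
      have h4 := not_both h hJ hi hlt
      have h5 : ((j + (J - 1)) % J + 1) % J = j := by
        rw [Nat.mod_add_mod]
        have : j + (J - 1) + 1 = j + J := by omega
        rw [this, Nat.add_mod_right, Nat.mod_eq_of_lt hj]
      rw [h5] at h4
      exact h4 ⟨h3, h1⟩
    have h1 := hone j hj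
    revert hnb h1
    cases x (i, j, true) <;> cases x (i, j, false) <;> simp

/-- The choice does not depend on the row. -/
theorem const_row (h : Csp N J w x) (hJ : 2 ≤ J) {i : ℕ} (hi : i < N) :
    ∀ j < J, x (i, j, true) = x (i, 0, true) := by
  have hstep : ∀ j < J, x (i, (j + 1) % J, true) = true → x (i, j, true) = true := by
    intro j hj h1
    have h2 := not_both h hJ hi hj
    rw [exact_one h hJ i hi j hj]
    cases h3 : x (i, j, false)
    · rfl
    · exact absurd ⟨h3, h1⟩ h2
  have hdown : ∀ j < J, x (i, j, true) = true → x (i, 0, true) = true := by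
    intro j
    induction j with
    | zero => exact fun _ h => h
    | succ j ih =>
      intro hj h1
      refine ih (by omega) (hstep j (by omega) ?_)
      rw [Nat.mod_eq_of_lt hj]
      exact h1
  have hup : ∀ k, k < J → x (i, 0, true) = true → x (i, J - 1 - k, true) = true := by
    intro k
    induction k with
    | zero =>
      intro _ h1
      refine hstep _ (by omega) ?_
      have : (J - 1 - 0 + 1) = J := by omega
      rw [this, Nat.mod_self]
      exact h1
    | succ k ih =>
      intro hk h1
      refine hstep _ (by omega) ?_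
      have : (J - 1 - (k + 1) + 1) = J - 1 - k := by omega
      rw [this, Nat.mod_eq_of_lt (by omega)]
      exact ih (by omega) h1
  intro j hj
  rw [Bool.eq_iff_iff]
  refine ⟨hdown j hj, fun h1 => ?_⟩
  have := hup (J - 1 - j) (by omega) h1
  have e : J - 1 - (J - 1 - j) = j := by omega
  rwa [e] at this

end

theorem sat_of_csp {φ : F3} (hd : Distinct3 φ) (hb : Bounded3 φ) (hne : φ ≠ []) {x : Cell → Bool}
    (h : Csp (3 * φ.length) (φ.length + 1) (wOf φ) x) : SAT3 φ := by
  classical
  have hm : 0 < φ.length := List.length_pos_of_ne_nil hne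
  have hJ : 2 ≤ φ.length + 1 := by omega
  refine ⟨fun i => x (i, 0, true), fun c hc => ?_⟩
  by_contra hcon
  simp only [not_or] at hcon
  obtain ⟨j, hj, rfl⟩ := List.getElem_of_mem hc
  have hbc := hb _ hc
  have hdc := hd _ hc
  have hx : ∀ l : Lit ℕ, l.2 < 3 * φ.length → x (l.2, 0, true) ≠ l.1 → x (l.2, j, l.1) = false := by
    rintro ⟨s, i⟩ hi h1
    simp only at hi h1 ⊢
    rw [← const_row h hJ hi j (by omega)] at h1
    have h2 := exact_one h hJ i hi j (by omega)
    cases s
    · rw [h2] at h1
      simpa using h1
    · simpa using h1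
  have h1 := h.clause j (by omega)
  have h2 : ({(φ[j].1.2, j, φ[j].1.1), (φ[j].2.1.2, j, φ[j].2.1.1),
      (φ[j].2.2.2, j, φ[j].2.2.1)} : Finset Cell) ⊆
      (((cells (3 * φ.length) (φ.length + 1)).toFinset).filter fun z =>
        z.2.1 = j ∧ wOf φ z = true ∧ x z = false) := by
    intro z hz
    rw [Finset.mem_insert, Finset.mem_insert, Finset.mem_singleton] at hz
    rw [Finset.mem_filter, List.mem_toFinset]
    rcases hz with rfl | rfl | rfl
    · exact ⟨mem_cells.2 ⟨hbc.1, by omega⟩, rfl, litIn_iff.2 ⟨hj, Or.inl rfl⟩,
        hx _ hbc.1 hcon.1⟩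
    · exact ⟨mem_cells.2 ⟨hbc.2.1, by omega⟩, rfl, litIn_iff.2 ⟨hj, Or.inr (Or.inl rfl)⟩,
        hx _ hbc.2.1 hcon.2.1⟩
    · exact ⟨mem_cells.2 ⟨hbc.2.2, by omega⟩, rfl, litIn_iff.2 ⟨hj, Or.inr (Or.inr rfl)⟩,
        hx _ hbc.2.2 hcon.2.2⟩
  have h3 := Finset.card_le_card h2
  rw [Finset.card_eq_three.2 ⟨_, _, _, ?_, ?_, ?_, rfl⟩] at h3
  · omega
  · intro he
    exact hdc.1 (Prod.mk.inj he).1
  · intro he
    exact hdc.2.1 (Prod.mk.inj he).1
  · intro he
    exact hdc.2.2 (Prod.mk.inj he).1

/-- The reduction on the level of centres. -/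
theorem sat_iff {φ : F3} (hd : Distinct3 φ) (hb : Bounded3 φ) (hne : φ ≠ []) :
    SAT3 φ ↔ (SF (CH (3 * φ.length) (φ.length + 1))
        (lvlH (3 * φ.length) (φ.length + 1) (wOf φ))).IsContained
      (SF (CG (3 * φ.length) (φ.length + 1)) (lvlG (3 * φ.length) (φ.length + 1) (wOf φ))) := by
  constructor
  · intro h
    obtain ⟨x, hx⟩ := csp_of_sat h
    obtain ⟨g, hg⟩ := emb_of_csp hx
    exact contained_of_emb hg
  · intro h
    obtain ⟨g, hg⟩ := emb_of_contained h
    have hm : 0 < φ.length := List.length_pos_of_ne_nil hne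
    obtain ⟨x, hx⟩ := csp_of_emb (by omega) hg
    exact sat_of_csp hd hb hne hx

end Pool.Agent.Q227.SI
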