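import Pool.Agent.Q227.MkG
import Mathlib.Combinatorics.SimpleGraph.Hasse

/-!
# Disjoint unions of stars and double stars
-/

set_option autoImplicit false

namespace Pool.Agent.Q227.SI

open Pool.Agent.NPC Pool.Agent.H679R2

/-- Cells: index of a variable, index of a clause, sign. -/
abbrev Cell : Type := ℕ × ℕ × Bool

/-- Codes of centres: kind, cell, and two further signs. -/
abbrev Code : Type := ℕ × Cell × Bool × Bool

/-- The centres `c`, `d` belong to the same double star. -/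
def mateB (c d : Code) : Bool :=
  decide (c.1 = 0) && (decide (d.1 = 0) && (decide (c.2.1 = d.2.1) &&
    (decide (c.2.2.1 = d.2.2.1) && decide (c.2.2.2 = !d.2.2.2))))

/-- Adjacency of centres `(c, 0)` and leaves `(c, k)`, `k > 0`. -/
def adjV (v w : Code × ℕ) : Bool :=
  (decide (v.1 = w.1) && ((decide (v.2 = 0) && !decide (w.2 = 0)) ||
    (!decide (v.2 = 0) && decide (w.2 = 0)))) ||
  (decide (v.2 = 0) && (decide (w.2 = 0) && mateB v.1 w.1))

theorem mateB_iff {c d : Code} : mateB c d = true ↔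
    c.1 = 0 ∧ d.1 = 0 ∧ c.2.1 = d.2.1 ∧ c.2.2.1 = d.2.2.1 ∧ c.2.2.2 = !d.2.2.2 := by
  unfold mateB
  simp only [Bool.and_eq_true, decide_eq_true_eq]

theorem adjV_iff {c d : Code} {k l : ℕ} : adjV (c, k) (d, l) = true ↔
    (c = d ∧ ((k = 0 ∧ l ≠ 0) ∨ (k ≠ 0 ∧ l = 0))) ∨ (k = 0 ∧ l = 0 ∧ mateB c d = true) := by
  unfold adjV
  simp only [Bool.or_eq_true, Bool.and_eq_true, decide_eq_true_eq, Bool.not_eq_true',
    decide_eq_false_iff_not, ne_eq]

theorem mateB_symm {c d : Code} (h : mateB c d = true) : mateB d c = true := by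
  rw [mateB_iff] at h ⊢
  obtain ⟨h1, h2, h3, h4, h5⟩ := h
  exact ⟨h2, h1, h3.symm, h4.symm, by rw [h5, Bool.not_not]⟩

theorem mateB_fun {c d d' : Code} (h : mateB c d = true) (h' : mateB c d' = true) : d = d' := by
  rw [mateB_iff] at h h'
  obtain ⟨h1, h2, h3, h4, h5⟩ := h
  obtain ⟨h1', h2', h3', h4', h5'⟩ := h'
  obtain ⟨d1, d2, d3, d4⟩ := d
  obtain ⟨e1, e2, e3, e4⟩ := d'
  simp only at *
  rw [h2, h2', ← h3, ← h3', ← h4, ← h4']
  rw [h5] at h5'
  rw [Bool.not_inj h5']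

theorem mateB_ne {c d : Code} (h : mateB c d = true) : c ≠ d := by
  rintro rfl
  rw [mateB_iff] at h
  have := h.2.2.2.2
  cases hc : c.2.2.2 <;> rw [hc] at this <;> exact Bool.noConfusion this

theorem adjV_symm (v w : Code × ℕ) (h : adjV v w = true) : adjV w v = true := by
  obtain ⟨c, k⟩ := v
  obtain ⟨d, l⟩ := w
  rw [adjV_iff] at h ⊢
  rcases h with ⟨rfl, h⟩ | ⟨h1, h2, h3⟩
  · exact Or.inl ⟨rfl, by tauto⟩
  · exact Or.inr ⟨h2, h1, mateB_symm h3⟩

theorem adjV_irrefl (v : Code × ℕ) : adjV v v = false := by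
  obtain ⟨c, k⟩ := v
  rw [← Bool.not_eq_true, adjV_iff]
  rintro (⟨_, h⟩ | ⟨_, _, h⟩)
  · omega
  · exact mateB_ne h rfl

/-- The vertices. -/
def VL (cs : List Code) (lvl : Code → ℕ) : List (Code × ℕ) :=
  cs.flatMap fun c => (List.range (2 * lvl c + 3)).map fun k => (c, k)

theorem mem_VL {cs : List Code} {lvl : Code → ℕ} {c : Code} {k : ℕ} :
    (c, k) ∈ VL cs lvl ↔ c ∈ cs ∧ k ≤ 2 * lvl c + 2 := by
  unfold VL
  simp only [List.mem_flatMap, List.mem_map, List.mem_range, Prod.mk.injEq]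
  constructor
  · rintro ⟨c, hc, k, hk, rfl, rfl⟩
    exact ⟨hc, by omega⟩
  · rintro ⟨hc, hk⟩
    exact ⟨c, hc, k, by omega, rfl, rfl⟩

theorem VL_nodup {cs : List Code} (hcs : cs.Nodup) (lvl : Code → ℕ) : (VL cs lvl).Nodup := by
  unfold VL
  rw [List.nodup_flatMap]
  constructor
  · intro c _
    exact List.nodup_range.map fun a b h => (Prod.mk.inj h).2
  · refine hcs.imp ?_
    intro c d hcd x hx hx'
    rw [List.mem_map] at hx hx'
    obtain ⟨k, _, rfl⟩ := hx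
    obtain ⟨l, _, h⟩ := hx'
    exact hcd (Prod.mk.inj h).1.symm

/-- The graph. -/
def SF (cs : List Code) (lvl : Code → ℕ) : SimpleGraph {v : Code × ℕ // v ∈ VL cs lvl} :=
  GrL (VL cs lvl) adjV adjV_symm adjV_irrefl

theorem SF_adj {cs : List Code} {lvl : Code → ℕ} {v w : {v : Code × ℕ // v ∈ VL cs lvl}} :
    (SF cs lvl).Adj v w ↔ adjV v.1 w.1 = true := Iff.rfl

/-- A vertex with two neighbours is a centre. -/
theorem centre_of_two {cs : List Code} {lvl : Code → ℕ} {v w w' : {v : Code × ℕ // v ∈ VL cs lvl}}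
    (h : (SF cs lvl).Adj v w) (h' : (SF cs lvl).Adj v w') (hne : w ≠ w') : v.1.2 = 0 := by
  obtain ⟨⟨c, k⟩, hv⟩ := v
  obtain ⟨⟨d, l⟩, hw⟩ := w
  obtain ⟨⟨d', l'⟩, hw'⟩ := w'
  rw [SF_adj, adjV_iff] at h h'
  by_contra h0
  simp only at h0
  apply hne
  rcases h with ⟨rfl, h⟩ | h
  · rcases h' with ⟨rfl, h'⟩ | h'
    · have e1 : l = 0 := by omega
      have e2 : l' = 0 := by omega
      subst e1 e2
      rfl
    · exact absurd h'.1 h0
  · exact absurd h.1 h0

/-- There is no path with five vertices. -/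
theorem p5_free (cs : List Code) (lvl : Code → ℕ) :
    (SimpleGraph.pathGraph 5).Free (SF cs lvl) := by
  rintro ⟨f⟩
  have hadj : ∀ i j : Fin 5, i.val + 1 = j.val → (SF cs lvl).Adj (f i) (f j) := by
    intro i j hij
    apply f.toHom.map_adj
    rw [SimpleGraph.pathGraph_adj]
    exact Or.inl hij
  have hinj := f.injective
  have h01 := hadj 0 1 rfl
  have h12 := hadj 1 2 rfl
  have h23 := hadj 2 3 rfl
  have h34 := hadj 3 4 rfl
  have c1 := centre_of_two h01.symm h12 (fun h => absurd (hinj h) (by decide))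
  have c2 := centre_of_two h12.symm h23 (fun h => absurd (hinj h) (by decide))
  have c3 := centre_of_two h23.symm h34 (fun h => absurd (hinj h) (by decide))
  have key : ∀ v w : {v : Code × ℕ // v ∈ VL cs lvl}, v.1.2 = 0 → w.1.2 = 0 →
      (SF cs lvl).Adj v w → mateB v.1.1 w.1.1 = true := by
    rintro ⟨⟨c, k⟩, hv⟩ ⟨⟨d, l⟩, hw⟩ h1 h2 h3
    rw [SF_adj, adjV_iff] at h3
    simp only at h1 h2
    rcases h3 with ⟨_, h3⟩ | h3
    · omega
    · exact h3.2.2
  have m12 := key _ _ c1 c2 h12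
  have m23 := key _ _ c2 c3 h23
  have h13 : f 1 = f 3 := by
    apply Subtype.ext
    exact Prod.ext (mateB_fun (mateB_symm m12) m23) (c1.trans c3.symm)
  exact absurd (hinj h13) (by decide)

/-- The conditions on a map between sets of centres. -/
structure Emb (ch cg : List Code) (lh lg : Code → ℕ) (g : Code → Code) : Prop where
  mem : ∀ c ∈ ch, g c ∈ cg
  inj : ∀ c ∈ ch, ∀ d ∈ ch, g c = g d → c = d
  lvl : ∀ c ∈ ch, lh c ≤ lg (g c)
  mate : ∀ c ∈ ch, ∀ d ∈ ch, mateB c d = true → mateB (g c) (g d) = true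

theorem contained_of_emb {ch cg : List Code} {lh lg : Code → ℕ} {g : Code → Code}
    (h : Emb ch cg lh lg g) : (SF ch lh).IsContained (SF cg lg) := by
  have hm : ∀ v : {v : Code × ℕ // v ∈ VL ch lh}, (g v.1.1, v.1.2) ∈ VL cg lg := by
    rintro ⟨⟨c, k⟩, hv⟩
    rw [mem_VL] at hv ⊢
    have := h.lvl c hv.1
    exact ⟨h.mem c hv.1, by simp only; omega⟩
  refine ⟨⟨⟨fun v => ⟨(g v.1.1, v.1.2), hm v⟩, ?_⟩, ?_⟩⟩
  · rintro ⟨⟨c, k⟩, hv⟩ ⟨⟨d, l⟩, hw⟩ hvw
    rw [SF_adj, adjV_iff] at hvw ⊢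
    rw [mem_VL] at hv hw
    rcases hvw with ⟨rfl, h1⟩ | ⟨h1, h2, h3⟩
    · exact Or.inl ⟨rfl, h1⟩
    · exact Or.inr ⟨h1, h2, h.mate c hv.1 d hw.1 h3⟩
  · rintro ⟨⟨c, k⟩, hv⟩ ⟨⟨d, l⟩, hw⟩ hvw
    rw [mem_VL] at hv hw
    have h0 : ((g c, k) : Code × ℕ) = (g d, l) := congrArg Subtype.val hvw
    have h1 := Prod.mk.inj h0
    apply Subtype.ext
    exact Prod.ext (h.inj c hv.1 d hw.1 h1.1) h1.2

theorem emb_of_contained {ch cg : List Code} {lh lg : Code → ℕ}
    (h : (SF ch lh).IsContained (SF cg lg)) : ∃ g, Emb ch cg lh lg g := by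
  classical
  obtain ⟨f⟩ := h
  have hv : ∀ (c : Code) (k : ℕ), c ∈ ch → k ≤ 2 → (c, k) ∈ VL ch lh := fun c k hc hk =>
    mem_VL.2 ⟨hc, by omega⟩
  have hcen : ∀ (c : Code) (hc : c ∈ ch), (f ⟨(c, 0), hv c 0 hc (by omega)⟩).1.2 = 0 := by
    intro c hc
    refine centre_of_two (w := f ⟨(c, 1), hv c 1 hc (by omega)⟩)
      (w' := f ⟨(c, 2), hv c 2 hc (by omega)⟩) ?_ ?_ ?_
    · apply f.toHom.map_adj
      rw [SF_adj, adjV_iff]
      exact Or.inl ⟨rfl, Or.inl ⟨rfl, by omega⟩⟩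
    · apply f.toHom.map_adj
      rw [SF_adj, adjV_iff]
      exact Or.inl ⟨rfl, Or.inl ⟨rfl, by omega⟩⟩
    · intro h
      have h1 := congrArg (fun v => v.1.2) (f.injective h)
      exact absurd h1 (by simp)
  set g : Code → Code := fun c => if hc : c ∈ ch then (f ⟨(c, 0), hv c 0 hc (by omega)⟩).1.1
    else c with hg
  have hgf : ∀ (c : Code) (hc : c ∈ ch),
      (f ⟨(c, 0), hv c 0 hc (by omega)⟩).1 = (g c, 0) := by
    intro c hc
    have h1 : g c = (f ⟨(c, 0), hv c 0 hc (by omega)⟩).1.1 := dif_pos hc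
    exact Prod.ext h1.symm (hcen c hc)
  refine ⟨g, ?_, ?_, ?_, ?_⟩
  · intro c hc
    have h1 := (f ⟨(c, 0), hv c 0 hc (by omega)⟩).2
    rw [hgf c hc, mem_VL] at h1
    exact h1.1
  · intro c hc d hd hcd
    have h1 : f ⟨(c, 0), hv c 0 hc (by omega)⟩ = f ⟨(d, 0), hv d 0 hd (by omega)⟩ := by
      apply Subtype.ext
      rw [hgf c hc, hgf d hd, hcd]
    have h2 := congrArg (fun v => v.1.1) (f.injective h1)
    exact h2
  · intro c hc
    -- the neighbours of the centre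
    have hk : ∀ k : Fin (2 * lh c + 2), (c, k.val + 1) ∈ VL ch lh := fun k =>
      mem_VL.2 ⟨hc, by omega⟩
    have hadj : ∀ k : Fin (2 * lh c + 2),
        adjV (g c, 0) (f ⟨(c, k.val + 1), hk k⟩).1 = true := by
      intro k
      have h1 : (SF cg lg).Adj (f ⟨(c, 0), hv c 0 hc (by omega)⟩) (f ⟨(c, k.val + 1), hk k⟩) := by
        apply f.toHom.map_adj
        rw [SF_adj, adjV_iff]
        exact Or.inl ⟨rfl, Or.inl ⟨rfl, by omega⟩⟩
      rw [SF_adj, hgf c hc] at h1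
      exact h1
    let ψ : Fin (2 * lh c + 2) → Fin (2 * lg (g c) + 3) := fun k =>
      ⟨if (f ⟨(c, k.val + 1), hk k⟩).1.1 = g c then (f ⟨(c, k.val + 1), hk k⟩).1.2 else 0, by
        have h1 := (f ⟨(c, k.val + 1), hk k⟩).2
        split_ifs with h2
        · rw [show (f ⟨(c, k.val + 1), hk k⟩).1 = ((f ⟨(c, k.val + 1), hk k⟩).1.1,
            (f ⟨(c, k.val + 1), hk k⟩).1.2) from rfl, mem_VL, h2] at h1
          omega
        · omega⟩
    have hψ : Function.Injective ψ := by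
      intro k l hkl
      have h1 : (if (f ⟨(c, k.val + 1), hk k⟩).1.1 = g c then (f ⟨(c, k.val + 1), hk k⟩).1.2
          else 0) = (if (f ⟨(c, l.val + 1), hk l⟩).1.1 = g c then
          (f ⟨(c, l.val + 1), hk l⟩).1.2 else 0) := congrArg Fin.val hkl
      have h2 := hadj k
      have h3 := hadj l
      have h4 : f ⟨(c, k.val + 1), hk k⟩ = f ⟨(c, l.val + 1), hk l⟩ := by
        apply Subtype.ext
        generalize (f ⟨(c, k.val + 1), hk k⟩).1 = x at h1 h2
        generalize (f ⟨(c, l.val + 1), hk l⟩).1 = y at h1 h3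
        obtain ⟨x1, x2⟩ := x
        obtain ⟨y1, y2⟩ := y
        rw [adjV_iff] at h2 h3
        simp only at h1
        rcases h2 with ⟨rfl, h2⟩ | ⟨_, h2, h2'⟩
        · rcases h3 with ⟨rfl, h3⟩ | ⟨_, h3, h3'⟩
          · rw [if_pos rfl, if_pos rfl] at h1
            rw [h1]
          · rw [if_pos rfl, if_neg (mateB_ne h3').symm] at h1
            omega
        · rcases h3 with ⟨rfl, h3⟩ | ⟨_, h3, h3'⟩
          · rw [if_neg (mateB_ne h2').symm, if_pos rfl] at h1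
            omega
          · rw [h2, h3, mateB_fun h2' h3']
      have h5 := congrArg (fun v => v.1.2) (f.injective h4)
      simp only at h5
      exact Fin.ext (by omega)
    have h1 := Fintype.card_le_of_injective ψ hψ
    rw [Fintype.card_fin, Fintype.card_fin] at h1
    omega
  · intro c hc d hd hcd
    have h1 : (SF cg lg).Adj (f ⟨(c, 0), hv c 0 hc (by omega)⟩)
        (f ⟨(d, 0), hv d 0 hd (by omega)⟩) := by
      apply f.toHom.map_adj
      rw [SF_adj, adjV_iff]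
      exact Or.inr ⟨rfl, rfl, hcd⟩
    rw [SF_adj, hgf c hc, hgf d hd, adjV_iff] at h1
    rcases h1 with h1 | h1
    · omega
    · exact h1.2.2

end Pool.Agent.Q227.SI
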