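import Pool.Agent.Q227.SI.Slots
import Mathlib.Combinatorics.Hall.Basic

/-!
# Packing double stars and stars: from constraints to embeddings
-/

set_option autoImplicit false

namespace Pool.Agent.Q227.SI

open Finset

/-- Threshold form of Hall's condition. -/
theorem hall_le {α : Type} [DecidableEq α] (PF QF : Finset α) (p q : α → ℕ)
    (h : ∀ l, (PF.filter (fun a => l ≤ p a)).card ≤ (QF.filter (fun a => l ≤ q a)).card) :
    ∃ f : α → α, (∀ a ∈ PF, f a ∈ QF ∧ p a ≤ q (f a)) ∧ ∀ a ∈ PF, ∀ b ∈ PF, f a = f b → a = b := by
  obtain ⟨f, hf, hf'⟩ := (Finset.all_card_le_biUnion_card_iff_exists_injective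
    (fun a : {a // a ∈ PF} => QF.filter (fun b => p a.1 ≤ q b))).1 (by
      intro s
      rcases s.eq_empty_or_nonempty with rfl | hs
      · simp
      · obtain ⟨a0, ha0, hmin⟩ := s.exists_min_image (fun a => p a.1) hs
        have h1 : s.card ≤ (PF.filter (fun a => p a0.1 ≤ p a)).card := by
          rw [← Finset.card_image_of_injective s Subtype.val_injective]
          apply Finset.card_le_card
          intro a ha
          rw [Finset.mem_image] at ha
          obtain ⟨b, hb, rfl⟩ := ha
          rw [Finset.mem_filter]
          exact ⟨b.2, hmin b hb⟩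
        refine h1.trans ((h _).trans (Finset.card_le_card ?_))
        intro b hb
        rw [Finset.mem_biUnion]
        exact ⟨a0, ha0, hb⟩)
  refine ⟨fun a => if ha : a ∈ PF then f ⟨a, ha⟩ else a, ?_, ?_⟩
  · intro a ha
    have := hf' ⟨a, ha⟩
    rw [Finset.mem_filter] at this
    simp only [dif_pos ha]
    exact this
  · intro a ha b hb hab
    simp only [dif_pos ha, dif_pos hb] at hab
    exact congrArg Subtype.val (hf hab)

variable {N J : ℕ} {w x : Cell → Bool}

theorem slack_zero : slack N J 0 = 0 := by
  unfold slack
  rw [Nat.zero_mod, Nat.zero_sub, Nat.zero_mod, if_pos (Nat.zero_le _)]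
  split_ifs <;> rfl

theorem lvlH_lt {c : Code} (hc : c ∈ CH N J) : lvlH N J w c < Mid N J + 2 * (N * J) := by
  obtain ⟨k, z, h, e⟩ := c
  rw [mem_CH] at hc
  have key : ∀ z ∈ cells N J, ∀ h e, hostL N J w z h e < Mid N J + 2 * (N * J) ∧
      patL N J z e < Mid N J + 2 * (N * J) := by
    intro z hz h e
    have h1 := low_lt (w := w) hz
    have h2 := col_lt hz
    unfold hostL patL bx
    split_ifs <;> omega
  rcases hc with ⟨rfl, hz, rfl⟩ | ⟨rfl, hz⟩ | hc
  · exact (key z hz false e).2
  · exact (key z hz h e).1
  · have := mem_slackL.1 hc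
    obtain ⟨rfl, h1, _⟩ := this
    change z.1 - 1 < _
    omega

/-- The upgraded coordinates at a level. -/
def upF (N J : ℕ) (w x : Cell → Bool) (l : ℕ) : Finset Code :=
  (CH N J).toFinset.filter fun c => c.1 = 0 ∧ lvlH N J w c < l ∧
    l ≤ hostL N J w c.2.1 (x c.2.1) c.2.2.2

theorem mem_upF {l k : ℕ} {z : Cell} {h e : Bool} : (k, z, h, e) ∈ upF N J w x l ↔
    k = 0 ∧ z ∈ cells N J ∧ h = false ∧ patL N J z e < l ∧ l ≤ hostL N J w z (x z) e := by
  unfold upF
  rw [Finset.mem_filter, List.mem_toFinset, mem_CH]
  constructor
  · rintro ⟨h1, h2, h3, h4⟩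
    simp only at h2
    subst h2
    rcases h1 with h1 | h1 | h1
    · exact ⟨rfl, h1.2.1, h1.2.2, h3, h4⟩
    · exact absurd h1.1 (by decide)
    · exact absurd (mem_slackL.1 h1).1 (by decide)
  · rintro ⟨rfl, h1, rfl, h2, h3⟩
    exact ⟨Or.inl ⟨rfl, h1, rfl⟩, rfl, h2, h3⟩

theorem card_upF (h : Csp N J w x) (l : ℕ) : (upF N J w x l).card ≤ slack N J l := by
  classical
  rcases Nat.lt_or_ge l (Mid N J) with hl | hl
  · -- low levels
    have hsub : ∀ c ∈ upF N J w x l, ∃ z ∈ cells N J, c = (0, z, false, false) ∧ x z = false ∧
        bY N z < l ∧ l ≤ tY N w z := by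
      rintro ⟨k, z, b, e⟩ hc
      rw [mem_upF] at hc
      obtain ⟨rfl, hz, rfl, h1, h2⟩ := hc
      have he : e = false := by
        by_contra he
        rw [Bool.not_eq_false] at he
        subst he
        change bx N J z < l at h1
        unfold bx at h1
        omega
      subst he
      have hx : x z = false := by
        by_contra hx
        rw [Bool.not_eq_false] at hx
        rw [hx] at h2
        change l ≤ bY N z at h2
        change bY N z < l at h1
        omega
      rw [hx] at h2
      exact ⟨z, hz, rfl, hx, h1, h2⟩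
    have hN : 0 < N + 2 := by omega
    have hl1 := Nat.div_add_mod l (N + 2)
    have hl2 := Nat.mod_lt l hN
    have hjJ : l / (N + 2) < J := by
      rw [Nat.div_lt_iff_lt_mul hN, mul_comm]
      exact hl
    set j := l / (N + 2) with hj
    set t := l % (N + 2) with ht
    have hrow : ∀ z ∈ cells N J, bY N z < l → l ≤ tY N w z → z.2.1 = j ∧ z.1 < t := by
      intro z hz h1 h2
      have hz1 : z.1 < N := by
        obtain ⟨a, b, s⟩ := z
        exact (mem_cells.1 hz).1
      unfold bY at h1
      unfold tY at h2
      have h3 : (if w z = true then 1 else 0) ≤ 1 := by split_ifs <;> omega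
      rw [← hl1] at h1 h2
      rcases lt_trichotomy z.2.1 j with h4 | h4 | h4
      · have : (N + 2) * z.2.1 + (N + 2) ≤ (N + 2) * j := by nlinarith
        omega
      · rw [h4] at h1
        exact ⟨h4, by omega⟩
      · have : (N + 2) * j + (N + 2) ≤ (N + 2) * z.2.1 := by nlinarith
        omega
    rcases Nat.lt_or_ge N t with htN | htN
    · have ht' : t = N + 1 := by omega
      have e1 : slack N J l = 2 := by
        rw [← hl1, ht']
        exact slack_clause hjJ
      rw [e1]
      refine le_trans ?_ (h.clause j hjJ)
      rw [← Finset.card_image_of_injective _ (f := fun z : Cell => ((0, z, false, false) : Code))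
        (fun a b h => by simpa only [Prod.mk.injEq, true_and, and_true] using h)]
      apply Finset.card_le_card
      intro c hc
      obtain ⟨z, hz, rfl, h1, h2, h3⟩ := hsub c hc
      rw [Finset.mem_image]
      refine ⟨z, ?_, rfl⟩
      rw [Finset.mem_filter, List.mem_toFinset]
      obtain ⟨h4, h5⟩ := hrow z hz h2 h3
      refine ⟨hz, h4, ?_, h1⟩
      unfold tY at h3
      rw [← hl1, h4, ht'] at h3
      by_contra h6
      rw [if_neg h6] at h3
      omega
    · have e1 : slack N J l = t := by
        rw [← hl1]
        exact slack_row hjJ htN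
      rw [e1]
      refine le_trans ?_ (h.row j hjJ t htN)
      rw [← Finset.card_image_of_injective _ (f := fun z : Cell => ((0, z, false, false) : Code))
        (fun a b h => by simpa only [Prod.mk.injEq, true_and, and_true] using h)]
      apply Finset.card_le_card
      intro c hc
      obtain ⟨z, hz, rfl, h1, h2, h3⟩ := hsub c hc
      rw [Finset.mem_image]
      refine ⟨z, ?_, rfl⟩
      rw [Finset.mem_filter, List.mem_toFinset]
      obtain ⟨h4, h5⟩ := hrow z hz h2 h3
      exact ⟨hz, h4, h5, h1⟩
  · -- high levels
    have hsub : ∀ c ∈ upF N J w x l, ∃ z ∈ cells N J, c = (0, z, false, true) ∧ x z = true ∧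
        l = bx N J z + 1 := by
      rintro ⟨k, z, b, e⟩ hc
      rw [mem_upF] at hc
      obtain ⟨rfl, hz, rfl, h1, h2⟩ := hc
      have hlow := low_lt (w := w) hz
      have he : e = true := by
        by_contra he
        rw [Bool.not_eq_true] at he
        subst he
        have : hostL N J w z (x z) false ≤ max (bY N z) (tY N w z) := by
          unfold hostL
          simp only [Bool.false_eq_true, if_false]
          split_ifs
          · exact le_max_left _ _
          · exact le_max_right _ _
        have := lt_of_le_of_lt this (max_lt hlow.1 hlow.2)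
        omega
      subst he
      change bx N J z < l at h1
      have hx : x z = true := by
        by_contra hx
        rw [Bool.not_eq_true] at hx
        rw [hx] at h2
        change l ≤ bx N J z at h2
        omega
      rw [hx] at h2
      change l ≤ bx N J z + 1 at h2
      exact ⟨z, hz, rfl, hx, by omega⟩
    rcases (upF N J w x l).eq_empty_or_nonempty with he | ⟨c, hc⟩
    · rw [he]
      simp
    · obtain ⟨z, hz, rfl, h1, h2⟩ := hsub c hc
      have e1 : slack N J l = 1 := by
        rw [h2]
        exact slack_high (col J z) 1 (by omega)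
      rw [e1, Finset.card_le_one]
      have huniq : ∀ c ∈ upF N J w x l, c = (0, z, false, true) := by
        intro c' hc'
        obtain ⟨z', hz', rfl, h3, h4⟩ := hsub c' hc'
        have h5 : col J z' = col J z := by
          rw [h2] at h4
          unfold bx at h4
          omega
        rw [h.column z' hz' z hz h5 h3 h1]
      intro a ha b hb
      rw [huniq a ha, huniq b hb]

theorem emb_of_csp (h : Csp N J w x) :
    ∃ g, Emb (CH N J) (CG N J) (lvlH N J w) (lvlG N J w) g := by
  classical
  set PF : Finset Code := (CH N J).toFinset.filter fun c => ¬ c.1 = 0 with hPF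
  set QF : Finset Code := (CG N J).toFinset.filter fun d => ¬ (d.1 = 0 ∧ d.2.2.1 = x d.2.1)
    with hQF
  obtain ⟨f, hf, hf'⟩ := hall_le PF QF (lvlH N J w) (lvlG N J w) (by
    intro l
    rcases Nat.lt_or_ge l (Mid N J + 2 * (N * J)) with hl | hl
    swap
    · have : PF.filter (fun a => l ≤ lvlH N J w a) = ∅ := by
        rw [Finset.filter_eq_empty_iff]
        intro c hc
        have := lvlH_lt (w := w) (List.mem_toFinset.1 (Finset.mem_filter.1 hc).1)
        omega
      rw [this]
      simp
    set A : Finset Code := (CH N J).toFinset.filter (fun c => l ≤ lvlH N J w c) with hA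
    set B : Finset Code := (CG N J).toFinset.filter (fun c => l ≤ lvlG N J w c) with hB
    have e1 : PF.filter (fun a => l ≤ lvlH N J w a) = A.filter fun c => ¬ c.1 = 0 := by
      rw [hPF, hA, Finset.filter_filter, Finset.filter_filter]
      exact Finset.filter_congr fun c _ => by tauto
    have e2 : QF.filter (fun a => l ≤ lvlG N J w a) =
        B.filter fun d => ¬ (d.1 = 0 ∧ d.2.2.1 = x d.2.1) := by
      rw [hQF, hB, Finset.filter_filter, Finset.filter_filter]
      exact Finset.filter_congr fun c _ => by tauto
    rw [e1, e2]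
    have s1 := Finset.card_filter_add_card_filter_not (s := A) (fun c => c.1 = 0)
    have s2 := Finset.card_filter_add_card_filter_not (s := B)
      (fun d => d.1 = 0 ∧ d.2.2.1 = x d.2.1)
    -- all hosts
    have s3 : A.card + slack N J l ≤ B.card := by
      set E : Finset Code := (Finset.range (slack N J l)).image
        (fun k => ((2, (l, k, false), false, false) : Code)) with hE
      have hEc : E.card = slack N J l := by
        rw [hE, Finset.card_image_of_injective, Finset.card_range]
        intro a b hab
        simpa using hab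
      have hd : Disjoint A E := by
        rw [Finset.disjoint_left]
        intro c hc hc'
        rw [hE, Finset.mem_image] at hc'
        obtain ⟨k, hk, rfl⟩ := hc'
        have h2 : l ≤ l - 1 := (Finset.mem_filter.1 hc).2
        have h3 : l = 0 := by omega
        subst h3
        rw [slack_zero] at hk
        simp at hk
      rw [← hEc, ← Finset.card_union_of_disjoint hd]
      refine Finset.card_le_card_of_injOn io ?_ io_inj.injOn
      intro c hc
      rw [Finset.mem_coe, hB, Finset.mem_filter, List.mem_toFinset]
      rcases Finset.mem_union.1 (Finset.mem_coe.1 hc) with hc | hc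
      · obtain ⟨k, z, b, e⟩ := c
        rw [hA, Finset.mem_filter, List.mem_toFinset, mem_CH] at hc
        obtain ⟨hc, hl⟩ := hc
        rcases hc with ⟨rfl, hz, rfl⟩ | ⟨rfl, hz⟩ | hc
        · exact ⟨mem_CG.2 (Or.inr (Or.inl ⟨rfl, hz, rfl⟩)), hl⟩
        · exact ⟨mem_CG.2 (Or.inl ⟨rfl, hz⟩), hl⟩
        · have h1 := mem_slackL.1 hc
          obtain ⟨rfl, h1⟩ := h1
          refine ⟨mem_CG.2 (Or.inr (Or.inr hc)), ?_⟩
          change l ≤ z.1 - 1 at hl
          change l ≤ z.1
          omega
      · rw [hE, Finset.mem_image] at hc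
        obtain ⟨k, hk, rfl⟩ := hc
        refine ⟨mem_CG.2 (Or.inr (Or.inr (mem_slackL.2 ⟨rfl, hl, Finset.mem_range.1 hk, rfl, rfl,
          rfl⟩))), ?_⟩
        change l ≤ l
        exact le_rfl
    -- the used hosts
    have s4 : (B.filter fun d => d.1 = 0 ∧ d.2.2.1 = x d.2.1).card ≤
        (A.filter fun c => c.1 = 0).card + slack N J l := by
      refine le_trans ?_ (Nat.add_le_add_left (card_upF h l) _)
      refine le_trans ?_ (Finset.card_union_le _ _)
      refine Finset.card_le_card_of_injOn (fun d => (0, d.2.1, false, d.2.2.2)) ?_ ?_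
      · rintro ⟨k, z, b, e⟩ hd
        rw [Finset.mem_coe, Finset.mem_filter, hB, Finset.mem_filter, List.mem_toFinset,
          mem_CG] at hd
        obtain ⟨⟨hd, hl'⟩, rfl, hb⟩ := hd
        simp only at hb
        subst hb
        have hz : z ∈ cells N J := by
          rcases hd with h | h | h
          · exact h.2
          · exact absurd h.1 (by decide)
          · exact absurd (mem_slackL.1 h).1 (by decide)
        rw [Finset.mem_coe, Finset.mem_union]
        change l ≤ hostL N J w z (x z) e at hl'
        rcases Nat.lt_or_ge (patL N J z e) l with h1 | h1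
        · right
          exact mem_upF.2 ⟨rfl, hz, rfl, h1, hl'⟩
        · left
          rw [Finset.mem_filter, hA, Finset.mem_filter, List.mem_toFinset]
          exact ⟨⟨mem_CH.2 (Or.inl ⟨rfl, hz, rfl⟩), h1⟩, rfl⟩
      · rintro ⟨k, z, b, e⟩ hd ⟨k', z', b', e'⟩ hd' heq
        rw [Finset.mem_coe, Finset.mem_filter] at hd hd'
        obtain ⟨_, rfl, hb⟩ := hd
        obtain ⟨_, rfl, hb'⟩ := hd'
        simp only [Prod.mk.injEq, true_and] at heq hb hb'
        obtain ⟨rfl, rfl⟩ := heq
        rw [hb, hb']
    omega)
  have hPmem : ∀ c ∈ CH N J, ¬ c.1 = 0 → c ∈ PF := fun c hc h0 =>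
    Finset.mem_filter.2 ⟨List.mem_toFinset.2 hc, h0⟩
  refine ⟨fun c => if c.1 = 0 then (0, c.2.1, x c.2.1, c.2.2.2) else f c, ?_, ?_, ?_, ?_⟩
  · intro c hc
    by_cases h0 : c.1 = 0
    · simp only [if_pos h0]
      obtain ⟨k, z, b, e⟩ := c
      rw [mem_CH] at hc
      simp only at h0
      subst h0
      refine mem_CG.2 (Or.inl ⟨rfl, ?_⟩)
      rcases hc with h | h | h
      · exact h.2.1
      · exact absurd h.1 (by decide)
      · exact absurd (mem_slackL.1 h).1 (by decide)
    · simp only [if_neg h0]
      have := (hf c (hPmem c hc h0)).1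
      rw [hQF, Finset.mem_filter, List.mem_toFinset] at this
      exact this.1
  · intro c hc d hd hcd
    by_cases h0 : c.1 = 0
    · by_cases h1 : d.1 = 0
      · simp only [if_pos h0, if_pos h1, Prod.mk.injEq, true_and] at hcd
        obtain ⟨k, z, b, e⟩ := c
        obtain ⟨k', z', b', e'⟩ := d
        simp only at h0 h1 hcd
        subst h0 h1
        obtain ⟨rfl, _, rfl⟩ := hcd
        rw [mem_CH] at hc hd
        have hb : b = false := by
          rcases hc with h | h | h
          · exact h.2.2
          · exact absurd h.1 (by decide)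
          · exact absurd (mem_slackL.1 h).1 (by decide)
        have hb' : b' = false := by
          rcases hd with h | h | h
          · exact h.2.2
          · exact absurd h.1 (by decide)
          · exact absurd (mem_slackL.1 h).1 (by decide)
        rw [hb, hb']
      · exfalso
        simp only [if_pos h0, if_neg h1] at hcd
        have := (hf d (hPmem d hd h1)).1
        rw [hQF, Finset.mem_filter, ← hcd] at this
        exact this.2 ⟨rfl, rfl⟩
    · by_cases h1 : d.1 = 0
      · exfalso
        simp only [if_neg h0, if_pos h1] at hcd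
        have := (hf c (hPmem c hc h0)).1
        rw [hQF, Finset.mem_filter, hcd] at this
        exact this.2 ⟨rfl, rfl⟩
      · simp only [if_neg h0, if_neg h1] at hcd
        exact hf' c (hPmem c hc h0) d (hPmem d hd h1) hcd
  · intro c hc
    by_cases h0 : c.1 = 0
    · simp only [if_pos h0]
      obtain ⟨k, z, b, e⟩ := c
      simp only at h0
      subst h0
      change patL N J z e ≤ hostL N J w z (x z) e
      have hz : z ∈ cells N J := by
        rw [mem_CH] at hc
        rcases hc with h | h | h
        · exact h.2.1
        · exact absurd h.1 (by decide)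
        · exact absurd (mem_slackL.1 h).1 (by decide)
      have hz1 : z.1 < N := by
        obtain ⟨a, b, s⟩ := z
        exact (mem_cells.1 hz).1
      unfold patL hostL bY tY
      split_ifs <;> omega
    · simp only [if_neg h0]
      exact (hf c (hPmem c hc h0)).2
  · intro c hc d hd hcd
    rw [mateB_iff] at hcd
    obtain ⟨h1, h2, h3, _, h5⟩ := hcd
    simp only [if_pos h1, if_pos h2]
    rw [mateB_iff]
    exact ⟨rfl, rfl, h3, by simp only [h3], h5⟩

end Pool.Agent.Q227.SI
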