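import Pool.Agent.H679R2.Oct.Mem
import Pool.Agent.H671R2.PolyAuto

/-!
# Subgraph isomorphism: membership in `NP`
-/

set_option autoImplicit false

namespace Pool.Agent.Q227.SI

open Pool.Agent.NPC Pool.Agent.NPC.H679 Pool.Agent.H679R2

/-- Presented graphs. -/
abbrev PG : Type := List ℕ × List (ℕ × ℕ)

/-- The test whether a list of pairs is an embedding of the second graph into the first one. -/
def emb (I : PG × PG) (w : List (ℕ × ℕ)) : Bool :=
  w.all (fun q => decide (q.2 ∈ I.1.1)) &&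
  (I.2.1.all (fun v => w.any (fun q => decide (q.1 = v))) &&
  w.all (fun p => w.all (fun q =>
    (decide (p.1 = q.1) || !decide (p.2 = q.2)) &&
    (!adjb I.2 p.1 q.1 || adjb I.1 p.2 q.2))))

theorem emb_poly : Poly (fun x : (PG × PG) × List (ℕ × ℕ) => emb x.1 x.2) := by
  have h1 : Poly (fun x : (PG × PG) × List (ℕ × ℕ) => x.1.1) := by fun_prop
  have h2 : Poly (fun x : (PG × PG) × List (ℕ × ℕ) => x.1.2) := by fun_prop
  have hw : Poly (fun x : (PG × PG) × List (ℕ × ℕ) => x.2) := by fun_prop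
  refine Poly.and ?_ (Poly.and ?_ ?_)
  · exact Poly.all (p := fun (x : (PG × PG) × List (ℕ × ℕ)) (q : ℕ × ℕ) =>
      decide (q.2 ∈ x.1.1.1)) hw (Poly.decide_mem (by fun_prop) (by fun_prop))
  · refine Poly.all (p := fun (x : (PG × PG) × List (ℕ × ℕ)) (v : ℕ) =>
      x.2.any (fun q => decide (q.1 = v))) (Poly.fst h2) ?_
    exact Poly.any (p := fun (x : ((PG × PG) × List (ℕ × ℕ)) × ℕ) (q : ℕ × ℕ) =>
      decide (q.1 = x.2)) (by fun_prop) (Poly.decide_eq (by fun_prop) (by fun_prop))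
  · refine Poly.all (p := fun (x : (PG × PG) × List (ℕ × ℕ)) (p : ℕ × ℕ) =>
      x.2.all (fun q => (decide (p.1 = q.1) || !decide (p.2 = q.2)) &&
        (!adjb x.1.2 p.1 q.1 || adjb x.1.1 p.2 q.2))) hw ?_
    refine Poly.all (p := fun (x : ((PG × PG) × List (ℕ × ℕ)) × (ℕ × ℕ)) (q : ℕ × ℕ) =>
      (decide (x.2.1 = q.1) || !decide (x.2.2 = q.2)) &&
        (!adjb x.1.1.2 x.2.1 q.1 || adjb x.1.1.1 x.2.2 q.2)) (by fun_prop) ?_
    refine Poly.and (Poly.or (Poly.decide_eq (by fun_prop) (by fun_prop))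
      (Poly.not (Poly.decide_eq (by fun_prop) (by fun_prop)))) (Poly.or (Poly.not ?_) ?_)
    · exact adjb_poly (by fun_prop) (by fun_prop) (by fun_prop)
    · exact adjb_poly (by fun_prop) (by fun_prop) (by fun_prop)

theorem isContained_iff (I : PG × PG) : (toGraph I.2).IsContained (toGraph I.1) ↔
    ∃ w : List (ℕ × ℕ), sz w ≤ ((Polynomial.X) * (Polynomial.X + 1) + 1 :
      Polynomial ℕ).eval (sz I) ∧ emb I w = true := by
  constructor
  · rintro ⟨φ⟩
    refine ⟨I.2.1.attach.map (fun v => (v.1, (φ v).1)), ?_, ?_⟩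
    · have hI : sz I = sz I.1 + sz I.2 + 1 := sz_pair I.1 I.2
      have h1 : sz I.1 = sz I.1.1 + sz I.1.2 + 1 := sz_pair I.1.1 I.1.2
      have h2 : sz I.2 = sz I.2.1 + sz I.2.2 + 1 := sz_pair I.2.1 I.2.2
      have h4 := sz_le_length_mul (I.2.1.attach.map (fun v => (v.1, (φ v).1))) (sz I)
        (fun q hq => by
          obtain ⟨v, -, rfl⟩ := List.mem_map.1 hq
          have h5 := sz_le_of_mem v.2
          have h6 := sz_le_of_mem (φ v).2
          have h7 : sz ((v.1, (φ v).1) : ℕ × ℕ) = sz v.1 + sz (φ v).1 + 1 := sz_pair _ _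
          omega)
      have h5 := length_lt_sz I.2.1
      rw [List.length_map, List.length_attach] at h4
      simp only [Polynomial.eval_add, Polynomial.eval_mul, Polynomial.eval_X,
        Polynomial.eval_one]
      exact h4.trans (Nat.add_le_add_right (Nat.mul_le_mul_right _ (by omega)) 1)
    · simp only [emb, Bool.and_eq_true, List.all_eq_true, List.any_eq_true, decide_eq_true_eq,
        Bool.or_eq_true, Bool.not_eq_true', decide_eq_false_iff_not, List.mem_map,
        List.mem_attach, true_and]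
      refine ⟨?_, ?_, ?_⟩
      · rintro _ ⟨v, rfl⟩
        exact (φ v).2
      · intro v hv
        exact ⟨_, ⟨⟨v, hv⟩, rfl⟩, rfl⟩
      · rintro _ ⟨u, rfl⟩ _ ⟨v, rfl⟩
        constructor
        · by_cases h : u = v
          · exact Or.inl (congrArg Subtype.val h)
          · exact Or.inr fun h2 => h (φ.injective (Subtype.ext h2))
        · by_cases h : (toGraph I.2).Adj u v
          · exact Or.inr ((adjb_iff _ _ _).2 (φ.toHom.map_adj h))
          · refine Or.inl ?_
            rw [← adjb_iff] at h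
            simpa using h
  · rintro ⟨w, -, hw⟩
    simp only [emb, Bool.and_eq_true, List.all_eq_true, List.any_eq_true, decide_eq_true_eq,
      Bool.or_eq_true, Bool.not_eq_true', decide_eq_false_iff_not] at hw
    obtain ⟨h1, h2, h3⟩ := hw
    choose q hq1 hq2 using fun v : {v : ℕ // v ∈ I.2.1} => h2 v.1 v.2
    refine ⟨⟨⟨fun v => ⟨(q v).2, h1 _ (hq1 v)⟩, ?_⟩, ?_⟩⟩
    · intro u v huv
      rw [← adjb_iff] at huv ⊢
      rcases (h3 _ (hq1 u) _ (hq1 v)).2 with h | h
      · rw [hq2, hq2, huv] at h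
        exact Bool.noConfusion h
      · exact h
    · intro u v huv
      have h4 : (q u).2 = (q v).2 := congrArg Subtype.val huv
      rcases (h3 _ (hq1 u) _ (hq1 v)).1 with h | h
      · rw [hq2, hq2] at h
        exact Subtype.ext h
      · exact absurd h4 h

/-- Membership in `NP` of SUBGRAPH ISOMORPHISM on `F`-subgraph-free graphs. -/
theorem inNPP_si {W : Type} [Finite W] (F : SimpleGraph W) :
    InNPP (fun I : PG × PG => (F.Free (toGraph I.1) ∧ F.Free (toGraph I.2)) ∧
      (toGraph I.2).IsContained (toGraph I.1)) := by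
  obtain ⟨d, hd, hF⟩ := free_decidable F
  refine inNPP_of (R := fun x : (PG × PG) × List (ℕ × ℕ) =>
    (d x.1.1 && d x.1.2) && emb x.1 x.2)
    (Poly.and (Poly.and (hd.comp (f := fun x : (PG × PG) × List (ℕ × ℕ) => x.1.1) (by fun_prop))
      (hd.comp (f := fun x : (PG × PG) × List (ℕ × ℕ) => x.1.2) (by fun_prop))) emb_poly)
    ((Polynomial.X) * (Polynomial.X + 1) + 1 : Polynomial ℕ) fun I => ?_
  rw [isContained_iff, hF, hF]
  simp only [Bool.and_eq_true]
  constructor
  · rintro ⟨h1, w, hw, hc⟩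
    exact ⟨w, hw, h1, hc⟩
  · rintro ⟨w, hw, h1, hc⟩
    exact ⟨h1, w, hw, hc⟩

end Pool.Agent.Q227.SI
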