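import Pool.Agent.Q227.SI.Sat

/-!
# Packing double stars and stars: the reduction is computed in polynomial time
-/

set_option autoImplicit false

namespace Pool.Agent.Q227.SI

open Pool.Agent.NPC Pool.Agent.Q227.TF Pool.Agent.H679R2

/-- The list of the vertices, in a form suited for computation. -/
def VK (cs : List Code) (lvl : Code → ℕ) (K : ℕ) : List (Code × ℕ) :=
  (cs ×ˢ List.range (2 * K + 3)).filter fun v => decide (v.2 ≤ 2 * lvl v.1 + 2)

theorem mem_VK {cs : List Code} {lvl : Code → ℕ} {K : ℕ} (hK : ∀ c ∈ cs, lvl c ≤ K)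
    (v : Code × ℕ) : v ∈ VK cs lvl K ↔ v ∈ VL cs lvl := by
  obtain ⟨c, k⟩ := v
  unfold VK
  rw [mem_VL, List.mem_filter, List.mem_product, List.mem_range, decide_eq_true_eq]
  constructor
  · rintro ⟨⟨h1, _⟩, h2⟩
    exact ⟨h1, h2⟩
  · rintro ⟨h1, h2⟩
    have := hK c h1
    exact ⟨⟨h1, by omega⟩, h2⟩

theorem VK_iso {cs : List Code} {lvl : Code → ℕ} {K : ℕ} (hcs : cs.Nodup)
    (hK : ∀ c ∈ cs, lvl c ≤ K) :
    Nonempty (toGraph (mkG (VK cs lvl K) adjV) ≃g SF cs lvl) := by
  have hnd : (VK cs lvl K).Nodup := (hcs.product List.nodup_range).filter _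
  obtain ⟨e⟩ := mkG_iso hnd adjV adjV_symm adjV_irrefl
  exact ⟨e.trans ⟨Equiv.subtypeEquivRight (mem_VK hK), Iff.rfl⟩⟩

theorem lvlG_lt {N J : ℕ} {w : Cell → Bool} {c : Code} (hc : c ∈ CG N J) :
    lvlG N J w c < Mid N J + 2 * (N * J) := by
  obtain ⟨k, z, h, e⟩ := c
  rw [mem_CG] at hc
  have key : ∀ z ∈ cells N J, ∀ h e, hostL N J w z h e < Mid N J + 2 * (N * J) ∧
      patL N J z e < Mid N J + 2 * (N * J) := by
    intro z hz h e
    have h1 := low_lt (w := w) hz
    have h2 := col_lt hz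
    unfold hostL patL bx
    split_ifs <;> omega
  rcases hc with ⟨rfl, hz⟩ | ⟨rfl, hz, rfl⟩ | hc
  · exact (key z hz h e).1
  · exact (key z hz false e).2
  · have := mem_slackL.1 hc
    obtain ⟨rfl, h1, _⟩ := this
    exact h1

/-- The host graph. -/
def host (φ : F3) : List ℕ × List (ℕ × ℕ) :=
  mkG (VK (CG (3 * φ.length) (φ.length + 1)) (lvlG (3 * φ.length) (φ.length + 1) (wOf φ))
    (Mid (3 * φ.length) (φ.length + 1) + 2 * (3 * φ.length * (φ.length + 1)))) adjV

/-- The pattern graph. -/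
def pattern (φ : F3) : List ℕ × List (ℕ × ℕ) :=
  mkG (VK (CH (3 * φ.length) (φ.length + 1)) (lvlH (3 * φ.length) (φ.length + 1) (wOf φ))
    (Mid (3 * φ.length) (φ.length + 1) + 2 * (3 * φ.length * (φ.length + 1)))) adjV

theorem host_iso (φ : F3) : Nonempty (toGraph (host φ) ≃g
    SF (CG (3 * φ.length) (φ.length + 1)) (lvlG (3 * φ.length) (φ.length + 1) (wOf φ))) :=
  VK_iso (CG_nodup _ _) fun _ hc => (lvlG_lt hc).le

theorem pattern_iso (φ : F3) : Nonempty (toGraph (pattern φ) ≃g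
    SF (CH (3 * φ.length) (φ.length + 1)) (lvlH (3 * φ.length) (φ.length + 1) (wOf φ))) :=
  VK_iso (CH_nodup _ _) fun _ hc => (lvlH_lt hc).le

theorem contained_iff {φ : F3} (hd : Distinct3 φ) (hb : Bounded3 φ) (hne : φ ≠ []) :
    SAT3 φ ↔ (toGraph (pattern φ)).IsContained (toGraph (host φ)) := by
  rw [sat_iff hd hb hne]
  obtain ⟨e⟩ := host_iso φ
  obtain ⟨e'⟩ := pattern_iso φ
  exact (SimpleGraph.isContained_congr e' e).symm

theorem host_free (φ : F3) : (SimpleGraph.pathGraph 5).Free (toGraph (host φ)) := by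
  obtain ⟨e⟩ := host_iso φ
  rw [SimpleGraph.free_congr_right e]
  exact p5_free _ _

theorem pattern_free (φ : F3) : (SimpleGraph.pathGraph 5).Free (toGraph (pattern φ)) := by
  obtain ⟨e⟩ := pattern_iso φ
  rw [SimpleGraph.free_congr_right e]
  exact p5_free _ _

/-! ### Running time -/

theorem len_poly : UPoly (fun φ : F3 => φ.length) := UPoly.length NPC.Poly.id

theorem N_poly : UPoly (fun φ : F3 => 3 * φ.length) := UPoly.mul (UPoly.const 3) len_poly

theorem J_poly : UPoly (fun φ : F3 => φ.length + 1) := UPoly.add len_poly (UPoly.const 1)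

theorem Mid_poly : UPoly (fun φ : F3 => Mid (3 * φ.length) (φ.length + 1)) :=
  UPoly.mul (UPoly.add N_poly (UPoly.const 2)) J_poly

theorem K_poly : UPoly (fun φ : F3 =>
    Mid (3 * φ.length) (φ.length + 1) + 2 * (3 * φ.length * (φ.length + 1))) :=
  UPoly.add Mid_poly (UPoly.mul (UPoly.const 2) (UPoly.mul N_poly J_poly))

theorem slack_le (N J l : ℕ) : slack N J l ≤ N + 2 := by
  unfold slack
  split_ifs <;> omega

theorem slack_poly : NPC.Poly (fun p : F3 × ℕ =>
    slack (3 * p.1.length) (p.1.length + 1) p.2) := by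
  unfold slack Mid
  fun_prop

theorem slackL_poly : NPC.Poly (fun φ : F3 => slackL (3 * φ.length) (φ.length + 1)) := by
  refine NPC.Poly.flatMap (F := fun (φ : F3) (l : ℕ) =>
    (List.range (slack (3 * φ.length) (φ.length + 1) l)).map
      fun k => ((2, (l, k, false), false, false) : Code)) K_poly.range ?_
  have h1 : NPC.Poly (fun p : F3 × ℕ =>
      List.range (slack (3 * p.1.length) (p.1.length + 1) p.2)) :=
    (UPoly.of_le slack_poly (UPoly.add (UPoly.comp N_poly (NPC.Poly.fst NPC.Poly.id))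
      (UPoly.const 2)) fun p => slack_le _ _ _).range
  exact NPC.Poly.map (F := fun (p : F3 × ℕ) (k : ℕ) =>
    ((2, (p.2, k, false), false, false) : Code)) h1 (by fun_prop)

theorem cells_poly : NPC.Poly (fun φ : F3 => cells (3 * φ.length) (φ.length + 1)) := by
  have h1 := N_poly.range
  have h2 := J_poly.range
  unfold cells
  fun_prop

theorem CG_poly : NPC.Poly (fun φ : F3 => CG (3 * φ.length) (φ.length + 1)) := by
  have h1 := cells_poly
  have h2 := slackL_poly
  unfold CG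
  fun_prop

theorem CH_poly : NPC.Poly (fun φ : F3 => CH (3 * φ.length) (φ.length + 1)) := by
  have h1 := cells_poly
  have h2 := slackL_poly
  unfold CH
  fun_prop

theorem wOf_poly : NPC.Poly (fun p : F3 × Cell => wOf p.1 p.2) :=
  litIn_poly (NPC.Poly.fst NPC.Poly.id) (by fun_prop) (by fun_prop) (by fun_prop)

theorem hostL_poly : NPC.Poly (fun p : F3 × Cell × Bool × Bool =>
    hostL (3 * p.1.length) (p.1.length + 1) (wOf p.1) p.2.1 p.2.2.1 p.2.2.2) := by
  have hw : NPC.Poly (fun p : F3 × Cell × Bool × Bool => wOf p.1 p.2.1) :=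
    wOf_poly.comp (f := fun p : F3 × Cell × Bool × Bool => (p.1, p.2.1)) (by fun_prop)
  have hw1 : NPC.Poly (fun p : F3 × Cell × Bool × Bool =>
      decide (wOf p.1 p.2.1 = true)) := NPC.Poly.decide_bool hw
  have h1 : NPC.Poly (fun p : F3 × Cell × Bool × Bool =>
      (if wOf p.1 p.2.1 = true then 1 else 0 : ℕ)) :=
    NPC.Poly.ite hw1 (NPC.Poly.const 1) (NPC.Poly.const 0)
  unfold hostL bx bY tY col Mid
  fun_prop

theorem patL_poly : NPC.Poly (fun p : F3 × Cell × Bool =>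
    patL (3 * p.1.length) (p.1.length + 1) p.2.1 p.2.2) := by
  unfold patL bx bY col Mid
  fun_prop

theorem lvlG_poly : NPC.Poly (fun p : F3 × Code =>
    lvlG (3 * p.1.length) (p.1.length + 1) (wOf p.1) p.2) := by
  have h1 : NPC.Poly (fun p : F3 × Code =>
      hostL (3 * p.1.length) (p.1.length + 1) (wOf p.1) p.2.2.1 p.2.2.2.1 p.2.2.2.2) :=
    hostL_poly.comp (f := fun p : F3 × Code => (p.1, p.2.2)) (by fun_prop)
  have h2 : NPC.Poly (fun p : F3 × Code =>
      patL (3 * p.1.length) (p.1.length + 1) p.2.2.1 p.2.2.2.2) :=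
    patL_poly.comp (f := fun p : F3 × Code => (p.1, p.2.2.1, p.2.2.2.2)) (by fun_prop)
  unfold lvlG
  fun_prop

theorem lvlH_poly : NPC.Poly (fun p : F3 × Code =>
    lvlH (3 * p.1.length) (p.1.length + 1) (wOf p.1) p.2) := by
  have h1 : NPC.Poly (fun p : F3 × Code =>
      hostL (3 * p.1.length) (p.1.length + 1) (wOf p.1) p.2.2.1 p.2.2.2.1 p.2.2.2.2) :=
    hostL_poly.comp (f := fun p : F3 × Code => (p.1, p.2.2)) (by fun_prop)
  have h2 : NPC.Poly (fun p : F3 × Code =>
      patL (3 * p.1.length) (p.1.length + 1) p.2.2.1 p.2.2.2.2) :=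
    patL_poly.comp (f := fun p : F3 × Code => (p.1, p.2.2.1, p.2.2.2.2)) (by fun_prop)
  unfold lvlH
  fun_prop

theorem VK_poly {cs : F3 → List Code} {lvl : F3 → Code → ℕ} {K : F3 → ℕ} (h1 : NPC.Poly cs)
    (h2 : NPC.Poly (fun p : F3 × Code => lvl p.1 p.2)) (h3 : UPoly K) :
    NPC.Poly (fun φ => VK (cs φ) (lvl φ) (K φ)) := by
  have h4 : NPC.Poly (fun φ => List.range (2 * K φ + 3)) :=
    (UPoly.add (UPoly.mul (UPoly.const 2) h3) (UPoly.const 3)).range
  unfold VK
  refine NPC.Poly.filter (l := fun φ => cs φ ×ˢ List.range (2 * K φ + 3))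
    (p := fun (φ : F3) (v : Code × ℕ) => decide (v.2 ≤ 2 * lvl φ v.1 + 2)) (by fun_prop) ?_
  have h5 : NPC.Poly (fun p : F3 × (Code × ℕ) => lvl p.1 p.2.1) :=
    h2.comp (f := fun p : F3 × (Code × ℕ) => (p.1, p.2.1)) (by fun_prop)
  exact NPC.Poly.decide_le (by fun_prop) (by fun_prop)

theorem adjV_poly : NPC.Poly (fun p : F3 × (Code × ℕ) × (Code × ℕ) => adjV p.2.1 p.2.2) := by
  unfold adjV mateB
  fun_prop

theorem host_poly : NPC.Poly host :=
  mkG_poly (adj := fun _ => adjV) (VK_poly CG_poly lvlG_poly K_poly) adjV_poly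

theorem pattern_poly : NPC.Poly pattern :=
  mkG_poly (adj := fun _ => adjV) (VK_poly CH_poly lvlH_poly K_poly) adjV_poly

end Pool.Agent.Q227.SI
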