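import Pool.Agent.Q227.SI.Forest

/-!
# Packing double stars and stars: the combinatorial core
-/

set_option autoImplicit false

namespace Pool.Agent.Q227.SI

open Finset

/-- The level which separates the two sorts of sizes. -/
def Mid (N J : ℕ) : ℕ := (N + 2) * J

/-- The column of a cell. -/
def col (J : ℕ) (z : Cell) : ℕ :=
  z.1 * J + (if z.2.2 = true then (z.2.1 + (J - 1)) % J else z.2.1)

/-- The lower level of a cell, first coordinate. -/
def bx (N J : ℕ) (z : Cell) : ℕ := Mid N J + 2 * col J z

/-- The lower level of a cell, second coordinate. -/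
def bY (N : ℕ) (z : Cell) : ℕ := (N + 2) * z.2.1 + z.1

/-- The upper level of a cell, second coordinate. -/
def tY (N : ℕ) (w : Cell → Bool) (z : Cell) : ℕ :=
  (N + 2) * z.2.1 + N + (if w z = true then 1 else 0)

/-- Levels of the hosts. -/
def hostL (N J : ℕ) (w : Cell → Bool) (z : Cell) (h e : Bool) : ℕ :=
  if e = true then (if h = true then bx N J z + 1 else bx N J z)
  else (if h = true then bY N z else tY N w z)

/-- Levels of the patterns. -/
def patL (N J : ℕ) (z : Cell) (e : Bool) : ℕ := if e = true then bx N J z else bY N z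

/-- The number of additional stars at a level. -/
def slack (N J l : ℕ) : ℕ :=
  if l < Mid N J then (if l % (N + 2) ≤ N then l % (N + 2) else 2) else (l - Mid N J) % 2

/-- Levels in the host graph. -/
def lvlG (N J : ℕ) (w : Cell → Bool) (c : Code) : ℕ :=
  if c.1 = 0 then hostL N J w c.2.1 c.2.2.1 c.2.2.2
  else if c.1 = 1 then patL N J c.2.1 c.2.2.2 else c.2.1.1

/-- Levels in the pattern graph. -/
def lvlH (N J : ℕ) (w : Cell → Bool) (c : Code) : ℕ :=
  if c.1 = 0 then patL N J c.2.1 c.2.2.2
  else if c.1 = 1 then hostL N J w c.2.1 c.2.2.1 c.2.2.2 else c.2.1.1 - 1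

/-- The cells. -/
def cells (N J : ℕ) : List Cell := List.range N ×ˢ (List.range J ×ˢ [false, true])

/-- The additional stars. -/
def slackL (N J : ℕ) : List Code :=
  (List.range (Mid N J + 2 * (N * J))).flatMap fun l =>
    (List.range (slack N J l)).map fun k => (2, (l, k, false), false, false)

/-- The centres of the host graph. -/
def CG (N J : ℕ) : List Code :=
  (cells N J ×ˢ ([false, true] ×ˢ [false, true])).map (fun p => (0, p)) ++
    ((cells N J ×ˢ ([false] ×ˢ [false, true])).map (fun p => (1, p)) ++ slackL N J)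

/-- The centres of the pattern graph. -/
def CH (N J : ℕ) : List Code :=
  (cells N J ×ˢ ([false] ×ˢ [false, true])).map (fun p => (0, p)) ++
    ((cells N J ×ˢ ([false, true] ×ˢ [false, true])).map (fun p => (1, p)) ++ slackL N J)

theorem mem_cells {N J i j : ℕ} {s : Bool} : (i, j, s) ∈ cells N J ↔ i < N ∧ j < J := by
  unfold cells
  simp only [List.mem_product, List.mem_range, List.mem_cons, List.not_mem_nil, or_false]
  cases s <;> simp

theorem mem_slackL {N J k : ℕ} {z : Cell} {h e : Bool} : (k, z, h, e) ∈ slackL N J ↔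
    k = 2 ∧ z.1 < Mid N J + 2 * (N * J) ∧ z.2.1 < slack N J z.1 ∧ z.2.2 = false ∧ h = false ∧
      e = false := by
  unfold slackL
  obtain ⟨a, b, s⟩ := z
  simp only [List.mem_flatMap, List.mem_map, List.mem_range, Prod.mk.injEq]
  constructor
  · rintro ⟨l, hl, k', hk', rfl, ⟨rfl, rfl, rfl⟩, rfl, rfl⟩
    exact ⟨rfl, hl, hk', rfl, rfl, rfl⟩
  · rintro ⟨rfl, h1, h2, rfl, rfl, rfl⟩
    exact ⟨a, h1, b, h2, rfl, ⟨rfl, rfl, rfl⟩, rfl, rfl⟩

theorem mem_CG {N J k : ℕ} {z : Cell} {h e : Bool} : (k, z, h, e) ∈ CG N J ↔
    (k = 0 ∧ z ∈ cells N J) ∨ (k = 1 ∧ z ∈ cells N J ∧ h = false) ∨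
      (k, z, h, e) ∈ slackL N J := by
  unfold CG
  have hb : ∀ b : Bool, b = false ∨ b = true := by decide
  simp only [List.mem_append, List.mem_map, List.mem_product, List.mem_cons, List.not_mem_nil,
    or_false, Prod.exists, Prod.mk.injEq]
  constructor
  · rintro (⟨a, b, s, h', e', ⟨h1, h2, h3⟩, rfl, rfl, rfl, rfl⟩ |
      ⟨a, b, s, h', e', ⟨h1, h2, h3⟩, rfl, rfl, rfl, rfl⟩ | h1)
    · exact Or.inl ⟨rfl, h1⟩
    · exact Or.inr (Or.inl ⟨rfl, h1, h2⟩)
    · exact Or.inr (Or.inr h1)
  · rintro (⟨rfl, h1⟩ | ⟨rfl, h1, rfl⟩ | h1)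
    · exact Or.inl ⟨z.1, z.2.1, z.2.2, h, e, ⟨h1, hb h, hb e⟩, rfl, rfl, rfl, rfl⟩
    · exact Or.inr (Or.inl ⟨z.1, z.2.1, z.2.2, false, e, ⟨h1, rfl, hb e⟩, rfl, rfl, rfl, rfl⟩)
    · exact Or.inr (Or.inr h1)

theorem mem_CH {N J k : ℕ} {z : Cell} {h e : Bool} : (k, z, h, e) ∈ CH N J ↔
    (k = 0 ∧ z ∈ cells N J ∧ h = false) ∨ (k = 1 ∧ z ∈ cells N J) ∨
      (k, z, h, e) ∈ slackL N J := by
  unfold CH
  have hb : ∀ b : Bool, b = false ∨ b = true := by decide
  simp only [List.mem_append, List.mem_map, List.mem_product, List.mem_cons, List.not_mem_nil,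
    or_false, Prod.exists, Prod.mk.injEq]
  constructor
  · rintro (⟨a, b, s, h', e', ⟨h1, h2, h3⟩, rfl, rfl, rfl, rfl⟩ |
      ⟨a, b, s, h', e', ⟨h1, h2, h3⟩, rfl, rfl, rfl, rfl⟩ | h1)
    · exact Or.inl ⟨rfl, h1, h2⟩
    · exact Or.inr (Or.inl ⟨rfl, h1⟩)
    · exact Or.inr (Or.inr h1)
  · rintro (⟨rfl, h1, rfl⟩ | ⟨rfl, h1⟩ | h1)
    · exact Or.inl ⟨z.1, z.2.1, z.2.2, false, e, ⟨h1, rfl, hb e⟩, rfl, rfl, rfl, rfl⟩
    · exact Or.inr (Or.inl ⟨z.1, z.2.1, z.2.2, h, e, ⟨h1, hb h, hb e⟩, rfl, rfl, rfl, rfl⟩)
    · exact Or.inr (Or.inr h1)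

theorem cells_nodup (N J : ℕ) : (cells N J).Nodup :=
  List.nodup_range.product (List.nodup_range.product (by simp))

theorem slackL_nodup (N J : ℕ) : (slackL N J).Nodup := by
  unfold slackL
  rw [List.nodup_flatMap]
  constructor
  · intro l _
    refine List.nodup_range.map fun a b h => ?_
    simp only [Prod.mk.injEq] at h
    exact h.2.1.2.1
  · refine List.nodup_range.imp ?_
    intro a b hab x hx hx'
    rw [List.mem_map] at hx hx'
    obtain ⟨k, _, rfl⟩ := hx
    obtain ⟨l, _, h⟩ := hx'
    simp only [Prod.mk.injEq] at h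
    exact hab h.2.1.1.symm

theorem nodup_aux {N J : ℕ} {l1 l2 : List (Cell × Bool × Bool)} (h1 : l1.Nodup) (h2 : l2.Nodup) :
    (l1.map (fun p => ((0, p) : Code)) ++ (l2.map (fun p => ((1, p) : Code)) ++
      slackL N J)).Nodup := by
  rw [List.nodup_append, List.nodup_append]
  refine ⟨h1.map fun a b h => (Prod.mk.inj h).2, ⟨h2.map fun a b h => (Prod.mk.inj h).2,
    slackL_nodup N J, ?_⟩, ?_⟩
  · rintro x hx y hy rfl
    rw [List.mem_map] at hx
    obtain ⟨p, _, rfl⟩ := hx
    obtain ⟨z, h, e⟩ := p
    rw [mem_slackL] at hy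
    exact absurd hy.1 (by decide)
  · rintro x hx y hy rfl
    rw [List.mem_map] at hx
    obtain ⟨p, _, rfl⟩ := hx
    obtain ⟨z, h, e⟩ := p
    rw [List.mem_append, List.mem_map] at hy
    rcases hy with ⟨q, _, hq⟩ | hy
    · exact absurd (Prod.mk.inj hq).1 (by decide)
    · rw [mem_slackL] at hy
      exact absurd hy.1 (by decide)

theorem CG_nodup (N J : ℕ) : (CG N J).Nodup :=
  nodup_aux ((cells_nodup N J).product (by decide)) ((cells_nodup N J).product (by decide))

theorem CH_nodup (N J : ℕ) : (CH N J).Nodup :=
  nodup_aux ((cells_nodup N J).product (by decide)) ((cells_nodup N J).product (by decide))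

/-- The natural bijection between the two sets of centres. -/
def io (c : Code) : Code := (if c.1 = 0 then 1 else if c.1 = 1 then 0 else c.1, c.2)

theorem io_inj : Function.Injective io := by
  rintro ⟨a, x⟩ ⟨b, y⟩ h
  simp only [io, Prod.mk.injEq] at h
  obtain ⟨h1, rfl⟩ := h
  have : a = b := by split_ifs at h1 <;> omega
  rw [this]

section

variable {N J : ℕ} {w : Cell → Bool}

/-- Few upgrades across a level. -/
theorem upgrades {g : Code → Code} (hg : Emb (CH N J) (CG N J) (lvlH N J w) (lvlG N J w) g)
    (l : ℕ) (S : Finset Code) (hS : ∀ c ∈ S, c ∈ CH N J ∧ lvlH N J w c < l ∧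
      l ≤ lvlG N J w (g c)) : S.card ≤ slack N J l := by
  classical
  set A : Finset Code := (CH N J).toFinset.filter (fun c => l ≤ lvlH N J w c) with hA
  set B : Finset Code := (CG N J).toFinset.filter (fun c => l ≤ lvlG N J w c) with hB
  have h1 : A.card + S.card ≤ B.card := by
    have hd : Disjoint A S := by
      rw [Finset.disjoint_left]
      intro c hc hc'
      have h2 := (Finset.mem_filter.1 hc).2
      have h3 := (hS c hc').2.1
      omega
    rw [← Finset.card_union_of_disjoint hd]
    refine Finset.card_le_card_of_injOn g ?_ ?_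
    · intro c hc
      rw [Finset.mem_coe, hB, Finset.mem_filter, List.mem_toFinset]
      rcases Finset.mem_union.1 (Finset.mem_coe.1 hc) with hc | hc
      · rw [hA, Finset.mem_filter, List.mem_toFinset] at hc
        exact ⟨hg.mem c hc.1, hc.2.trans (hg.lvl c hc.1)⟩
      · exact ⟨hg.mem c (hS c hc).1, (hS c hc).2.2⟩
    · intro c hc d hd hcd
      have hm : ∀ c, c ∈ A ∪ S → c ∈ CH N J := by
        intro c hc
        rcases Finset.mem_union.1 hc with hc | hc
        · rw [hA, Finset.mem_filter, List.mem_toFinset] at hc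
          exact hc.1
        · exact (hS c hc).1
      exact hg.inj c (hm c hc) d (hm d hd) hcd
  have h2 : B.card ≤ A.card + slack N J l := by
    have h3 : B ⊆ A.image io ∪ (Finset.range (slack N J l)).image
        (fun k => ((2, (l, k, false), false, false) : Code)) := by
      rintro ⟨k, z, h, e⟩ hc
      rw [hB, Finset.mem_filter, List.mem_toFinset, mem_CG] at hc
      obtain ⟨hc, hl⟩ := hc
      rw [Finset.mem_union, Finset.mem_image, Finset.mem_image]
      rcases hc with ⟨rfl, hz⟩ | ⟨rfl, hz, rfl⟩ | hc
      · left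
        refine ⟨(1, z, h, e), ?_, rfl⟩
        rw [hA, Finset.mem_filter, List.mem_toFinset, mem_CH]
        exact ⟨Or.inr (Or.inl ⟨rfl, hz⟩), hl⟩
      · left
        refine ⟨(0, z, false, e), ?_, rfl⟩
        rw [hA, Finset.mem_filter, List.mem_toFinset, mem_CH]
        exact ⟨Or.inl ⟨rfl, hz, rfl⟩, hl⟩
      · have hc' := mem_slackL.1 hc
        obtain ⟨rfl, h4, h5, h6, rfl, rfl⟩ := hc'
        obtain ⟨a, b, s⟩ := z
        simp only at h4 h5 h6
        subst h6
        simp only [lvlG] at hl
        rw [if_neg (by decide), if_neg (by decide)] at hl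
        by_cases h7 : l ≤ a - 1
        · left
          refine ⟨(2, (a, b, false), false, false), ?_, rfl⟩
          rw [hA, Finset.mem_filter, List.mem_toFinset, mem_CH]
          exact ⟨Or.inr (Or.inr hc), h7⟩
        · right
          have h8 : a = l := by omega
          subst h8
          exact ⟨b, Finset.mem_range.2 h5, rfl⟩
    refine (Finset.card_le_card h3).trans ((Finset.card_union_le _ _).trans ?_)
    refine Nat.add_le_add Finset.card_image_le (Finset.card_image_le.trans ?_)
    rw [Finset.card_range]
  omega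

/-- The constraints. -/
structure Csp (N J : ℕ) (w x : Cell → Bool) : Prop where
  column : ∀ z ∈ cells N J, ∀ z' ∈ cells N J, col J z = col J z' → x z = true → x z' = true →
    z = z'
  row : ∀ j < J, ∀ t ≤ N, (((cells N J).toFinset).filter fun z =>
    z.2.1 = j ∧ z.1 < t ∧ x z = false).card ≤ t
  clause : ∀ j < J, (((cells N J).toFinset).filter fun z =>
    z.2.1 = j ∧ w z = true ∧ x z = false).card ≤ 2

theorem slack_row {j t : ℕ} (hj : j < J) (ht : t ≤ N) : slack N J ((N + 2) * j + t) = t := by
  have h1 : (N + 2) * j + t < Mid N J := by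
    unfold Mid
    nlinarith
  have h2 : ((N + 2) * j + t) % (N + 2) = t := by
    rw [Nat.mul_add_mod, Nat.mod_eq_of_lt (by omega)]
  rw [slack, if_pos h1, h2, if_pos ht]

theorem slack_clause {j : ℕ} (hj : j < J) : slack N J ((N + 2) * j + (N + 1)) = 2 := by
  have h1 : (N + 2) * j + (N + 1) < Mid N J := by
    unfold Mid
    nlinarith
  have h2 : ((N + 2) * j + (N + 1)) % (N + 2) = N + 1 := by
    rw [Nat.mul_add_mod, Nat.mod_eq_of_lt (by omega)]
  rw [slack, if_pos h1, h2, if_neg (by omega)]

theorem slack_high (c b : ℕ) (hb : b < 2) : slack N J (Mid N J + 2 * c + b) = b := by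
  rw [slack, if_neg (by omega)]
  omega

theorem col_lt {z : Cell} (hz : z ∈ cells N J) : col J z < N * J := by
  obtain ⟨i, j, s⟩ := z
  rw [mem_cells] at hz
  unfold col
  simp only
  have h1 : (if s = true then (j + (J - 1)) % J else j) < J := by
    split_ifs
    · exact Nat.mod_lt _ (by omega)
    · exact hz.2
  nlinarith

theorem low_lt {z : Cell} (hz : z ∈ cells N J) : bY N z < Mid N J ∧ tY N w z < Mid N J := by
  obtain ⟨i, j, s⟩ := z
  rw [mem_cells] at hz
  unfold bY tY Mid
  simp only
  have h1 : (if w (i, j, s) = true then 1 else 0) ≤ 1 := by split_ifs <;> omega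
  constructor <;> nlinarith

/-- A cell is determined by its column and its row. -/
theorem cell_ext (hJ : 2 ≤ J) {z z' : Cell} (hz : z ∈ cells N J) (hz' : z' ∈ cells N J)
    (h1 : col J z = col J z') (h2 : z.2.1 = z'.2.1) : z = z' := by
  obtain ⟨i, j, s⟩ := z
  obtain ⟨i', j', s'⟩ := z'
  simp only at h2
  subst h2
  rw [mem_cells] at hz hz'
  unfold col at h1
  simp only at h1
  have hr : ∀ s : Bool, (if s = true then (j + (J - 1)) % J else j) < J := by
    intro s
    split_ifs
    · exact Nat.mod_lt _ (by omega)
    · exact hz.2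
  have h3 : i = i' ∧ (if s = true then (j + (J - 1)) % J else j) =
      (if s' = true then (j + (J - 1)) % J else j) := by
    have e1 := hr s
    have e2 := hr s'
    rcases lt_trichotomy i i' with h | h | h
    · have h6 := Nat.mul_le_mul_right J (Nat.succ_le_of_lt h)
      rw [Nat.succ_mul] at h6
      omega
    · subst h
      exact ⟨rfl, by omega⟩
    · have h6 := Nat.mul_le_mul_right J (Nat.succ_le_of_lt h)
      rw [Nat.succ_mul] at h6
      omega
  obtain ⟨rfl, h3⟩ := h3
  have h4 : (j + (J - 1)) % J ≠ j := by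
    rcases Nat.eq_zero_or_pos j with rfl | hj
    · rw [Nat.mod_eq_of_lt (by omega)]
      omega
    · have : j + (J - 1) = (j - 1) + J := by omega
      rw [this, Nat.add_mod_right, Nat.mod_eq_of_lt (by omega)]
      omega
  have h5 : s = s' := by
    cases s <;> cases s' <;> simp at h3 ⊢
    · exact h4 h3.symm
    · exact h4 h3
  rw [h5]

theorem csp_of_emb (hJ : 2 ≤ J) {g : Code → Code}
    (hg : Emb (CH N J) (CG N J) (lvlH N J w) (lvlG N J w) g) : ∃ x, Csp N J w x := by
  classical
  have hm : ∀ z ∈ cells N J, ∀ e : Bool, ((0, z, false, e) : Code) ∈ CH N J :=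
    fun z hz e => mem_CH.2 (Or.inl ⟨rfl, hz, rfl⟩)
  -- upgrades of a single centre
  have hup : ∀ c ∈ CH N J, ∀ l, slack N J l = 0 → lvlH N J w c < l → lvlG N J w (g c) < l := by
    intro c hc l h1 h2
    by_contra h3
    have h4 := upgrades hg l {c} (by
      intro d hd
      rw [Finset.mem_singleton] at hd
      subst hd
      exact ⟨hc, h2, by omega⟩)
    rw [h1, Finset.card_singleton] at h4
    omega
  have key : ∀ z ∈ cells N J, ∃ h : Bool, ∀ e : Bool, g (0, z, false, e) = (0, z, h, e) := by
    intro z hz
    have hmate := hg.mate _ (hm z hz true) _ (hm z hz false) (by simp [mateB])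
    have hl1 := hg.lvl _ (hm z hz true)
    have hl2 := hg.lvl _ (hm z hz false)
    have hu1 := hup _ (hm z hz true)
    have hu2 := hup _ (hm z hz false)
    have hg1 := hg.mem _ (hm z hz true)
    generalize hd : g (0, z, false, true) = d at *
    generalize hd' : g (0, z, false, false) = d' at *
    obtain ⟨k, z', h, e⟩ := d
    obtain ⟨k', z'', h', e'⟩ := d'
    rw [mateB_iff] at hmate
    obtain ⟨rfl, rfl, h3, h4, h5⟩ := hmate
    simp only at h3 h4 h5
    subst h3 h4 h5
    have hz' : z' ∈ cells N J := by
      rw [mem_CG] at hg1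
      rcases hg1 with h | h | h
      · exact h.2
      · exact absurd h.1 (by decide)
      · exact absurd (mem_slackL.1 h).1 (by decide)
    have hlow := low_lt (w := w) hz
    have hlow' := low_lt (w := w) hz'
    have elH : ∀ e : Bool, lvlH N J w (0, z, false, e) = patL N J z e := fun e => rfl
    have elG : ∀ e : Bool, lvlG N J w (0, z', h, e) = hostL N J w z' h e := fun e => rfl
    rw [elH, elG] at hl1 hl2
    rw [elH, elG] at hu1 hu2
    have he : e' = false := by
      by_contra he
      rw [Bool.not_eq_false] at he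
      subst he
      rw [Bool.not_true] at hl1
      unfold patL hostL at hl1
      simp only [if_true, Bool.false_eq_true, if_false] at hl1
      unfold bx at hl1
      split_ifs at hl1 <;> omega
    subst he
    rw [Bool.not_false] at hl1 hu1 hd
    -- columns
    have hcol : col J z = col J z' := by
      have h6 : hostL N J w z' h true = Mid N J + 2 * col J z' + (if h = true then 1 else 0) := by
        unfold hostL bx
        rw [if_pos rfl]
        split_ifs <;> rfl
      have h7 : patL N J z true = Mid N J + 2 * col J z := rfl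
      rw [h6, h7] at hl1
      rw [h6, h7] at hu1
      have h8 : (if h = true then 1 else 0) ≤ 1 := by split_ifs <;> omega
      have h9 : (0 : ℕ) ≤ (if h = true then 1 else 0) := by omega
      have h10 := hu1 (Mid N J + 2 * col J z') (by
        have := slack_high (N := N) (J := J) (col J z') 0 (by omega)
        simpa using this)
      omega
    have hrow : z.2.1 = z'.2.1 := by
      have h6 : (N + 2) * z'.2.1 ≤ hostL N J w z' h false ∧
          hostL N J w z' h false < (N + 2) * (z'.2.1 + 1) := by
        obtain ⟨i, j, s⟩ := z'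
        rw [mem_cells] at hz'
        unfold hostL bY tY
        simp only [Bool.false_eq_true, if_false]
        have h8 : (if w (i, j, s) = true then 1 else 0) ≤ 1 := by split_ifs <;> omega
        split_ifs <;> constructor <;> nlinarith
      have h7 : patL N J z false = (N + 2) * z.2.1 + z.1 := rfl
      have h8 : z.1 < N + 2 := by
        obtain ⟨i, j, s⟩ := z
        rw [mem_cells] at hz
        simp only
        omega
      have h9 : z'.2.1 < J := by
        obtain ⟨i, j, s⟩ := z'
        rw [mem_cells] at hz'
        exact hz'.2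
      rw [h7] at hl2 hu2
      have h10 := hu2 ((N + 2) * z'.2.1) (by
        have := slack_row (N := N) (J := J) (t := 0) h9 (by omega)
        simpa using this)
      rcases lt_trichotomy z.2.1 z'.2.1 with h11 | h11 | h11
      · have : (N + 2) * z.2.1 + (N + 2) ≤ (N + 2) * z'.2.1 := by nlinarith
        omega
      · exact h11
      · have : (N + 2) * (z'.2.1 + 1) ≤ (N + 2) * z.2.1 := by nlinarith
        omega
    have hzz := cell_ext hJ hz hz' hcol hrow
    subst hzz
    refine ⟨h, fun e => ?_⟩
    cases e
    · exact hd'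
    · exact hd
  choose! x hx using key
  refine ⟨x, ?_, ?_, ?_⟩
  · intro z hz z' hz' h1 h2 h3
    by_contra hne
    have h4 := upgrades hg (Mid N J + 2 * col J z + 1)
      {(0, z, false, true), (0, z', false, true)} (by
        intro c hc
        rw [Finset.mem_insert, Finset.mem_singleton] at hc
        rcases hc with rfl | rfl
        · refine ⟨hm z hz true, ?_, ?_⟩
          · change bx N J z < _
            unfold bx
            omega
          · rw [hx z hz true, h2]
            change _ ≤ bx N J z + 1
            unfold bx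
            omega
        · refine ⟨hm z' hz' true, ?_, ?_⟩
          · change bx N J z' < _
            unfold bx
            omega
          · rw [hx z' hz' true, h3]
            change _ ≤ bx N J z' + 1
            unfold bx
            omega)
    rw [slack_high _ 1 (by omega), Finset.card_pair (fun h => hne (by
      simpa only [Prod.mk.injEq, true_and, and_true] using h))] at h4
    omega
  · intro j hj t ht
    have h4 := upgrades hg ((N + 2) * j + t) ((((cells N J).toFinset).filter fun z =>
      z.2.1 = j ∧ z.1 < t ∧ x z = false).image fun z => ((0, z, false, false) : Code)) (by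
        intro c hc
        rw [Finset.mem_image] at hc
        obtain ⟨z, hz, rfl⟩ := hc
        rw [Finset.mem_filter, List.mem_toFinset] at hz
        obtain ⟨hz, h1, h2, h3⟩ := hz
        refine ⟨hm z hz false, ?_, ?_⟩
        · change bY N z < _
          unfold bY
          rw [h1]
          omega
        · rw [hx z hz false, h3]
          change _ ≤ tY N w z
          unfold tY
          rw [h1]
          omega)
    rwa [slack_row hj ht, Finset.card_image_of_injective _ (fun a b h => by
      simpa only [Prod.mk.injEq, true_and, and_true] using h)] at h4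
  · intro j hj
    have h4 := upgrades hg ((N + 2) * j + (N + 1)) ((((cells N J).toFinset).filter fun z =>
      z.2.1 = j ∧ w z = true ∧ x z = false).image fun z => ((0, z, false, false) : Code)) (by
        intro c hc
        rw [Finset.mem_image] at hc
        obtain ⟨z, hz, rfl⟩ := hc
        rw [Finset.mem_filter, List.mem_toFinset] at hz
        obtain ⟨hz, h1, h2, h3⟩ := hz
        refine ⟨hm z hz false, ?_, ?_⟩
        · change bY N z < _
          have : z.1 < N := by
            obtain ⟨i, j, s⟩ := z
            exact (mem_cells.1 hz).1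
          unfold bY
          rw [h1]
          omega
        · rw [hx z hz false, h3]
          change _ ≤ tY N w z
          unfold tY
          rw [h1, if_pos h2]
          omega)
    rwa [slack_clause hj, Finset.card_image_of_injective _ (fun a b h => by
      simpa only [Prod.mk.injEq, true_and, and_true] using h)] at h4

end

end Pool.Agent.Q227.SI
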